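import Pool.Agent.Lib.TG_h86.Cone
import Pool.Agent.Lib.LU3.Row2b

/-!
# TANK G: generic vectors are not zeros of small cones
-/

set_option autoImplicit false

namespace Pool.Agent.TGc

open MvPolynomial

universe u

/-- Let `c` be algebraically independent over `k₀` and let `F` be a field of transcendence degree
`≤ n` over `k₀`. If `c` is a zero of a cone over `F` which meets a linear space of codimension `s`
only in `0`, then `N ≤ n + s`. -/
theorem le_of_cone {k₀ k : Type u} [Field k₀] [Field k] [Algebra k₀ k] {N n s : ℕ}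
    (c : Fin N → k) (hc : AlgebraicIndependent k₀ c) (F : IntermediateField k₀ k)
    (hF : Algebra.trdeg k₀ F ≤ n) (I : Set (MvPolynomial (Fin N) F))
    (hI : ∀ f ∈ I, ∃ d, f.IsHomogeneous d) (h0 : ∀ f ∈ I, aeval c f = 0)
    (ℓ : Fin s → MvPolynomial (Fin N) F) (hℓ : ∀ j, (ℓ j).IsHomogeneous 1)
    (K : Type*) [Field K] [Algebra F K] [IsAlgClosed K]
    (hz : ∀ z : Fin N → K, (∀ f ∈ I, aeval z f = 0) → (∀ j, aeval z (ℓ j) = 0) → z = 0) :
    N ≤ n + s := by
  classical
  have hint := isIntegral_of_cone c I hI h0 ℓ hℓ K hz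
  set T : Set k := Set.range fun j => aeval c (ℓ j) with hT
  let E : IntermediateField F k := IntermediateField.adjoin F T
  let G : IntermediateField F k := (algebraicClosure E k).restrictScalars F
  have hmem : ∀ a : k, a ∈ G ↔ IsAlgebraic E a := fun a => by
    rw [IntermediateField.mem_restrictScalars, mem_algebraicClosure_iff]
  have hcG : ∀ i, c i ∈ G := by
    intro i
    rw [hmem]
    exact IsAlgebraic.tower_top_of_subalgebra_le
      (IntermediateField.algebra_adjoin_le_adjoin F T) (hint i).isAlgebraic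
  have hTG : ∀ j, aeval c (ℓ j) ∈ G := by
    intro j
    rw [hmem]
    exact isAlgebraic_algebraMap (⟨_, IntermediateField.subset_adjoin F T ⟨j, rfl⟩⟩ : E)
  let t : Fin s → G := fun j => ⟨aeval c (ℓ j), hTG j⟩
  have h1 : Algebra.IsAlgebraic (IntermediateField.adjoin F (Set.range t)) G := by
    refine ⟨fun g => ?_⟩
    refine LU3.R2b.alg_transfer G (Set.range t) T ?_ g ((hmem g).1 g.2)
    rintro x ⟨j, rfl⟩
    exact ⟨t j, IntermediateField.subset_adjoin _ _ ⟨j, rfl⟩, rfl⟩
  have h2 : Algebra.trdeg F G ≤ s := by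
    refine (LU1.trdeg_le_of_isAlgebraic (k := F) (Set.range t) h1).trans ?_
    have h3 := Cardinal.mk_range_le_lift (f := t)
    simpa using h3
  have h3 : Algebra.trdeg k₀ F + Algebra.trdeg F G = Algebra.trdeg k₀ G := trdeg_add_eq k₀ F
  let c' : Fin N → G := fun i => ⟨c i, hcG i⟩
  have hc' : AlgebraicIndependent k₀ c' := by
    have h4 : AlgebraicIndependent k₀ ((G.val.restrictScalars k₀ : G →ₐ[k₀] k) ∘ c') := hc
    exact h4.of_comp _
  have h4 := hc'.lift_cardinalMk_le_trdeg
  simp only [Cardinal.mk_fin, Cardinal.lift_natCast, Cardinal.lift_id, Cardinal.lift_uzero] at h4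
  have h5 : ((N : ℕ) : Cardinal.{u}) ≤ ((n + s : ℕ) : Cardinal.{u}) := by
    refine h4.trans ?_
    rw [← h3]
    push_cast
    exact add_le_add hF h2
  exact_mod_cast h5

end Pool.Agent.TGc
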