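import Pool.Agent.Lib.TG_h35.J7b
import Pool.Agent.Lib.TG15.Defs

/-!
# TANK G, C97, row R12 (b): the coefficients of the generic forms in the basis of a point
-/

set_option autoImplicit false

namespace Pool.Agent.TGJ

open Pool.Agent.TG (Ov)
open Pool.Agent.TG15 (tup)
open Pool.Agent.TGFOD

universe u

section Core

variable {k : Type u} [Field k]

open scoped Classical in
/-- The defect argument: the elements of the block `P` are not all algebraic over the rest. -/
theorem block_core {κ₀ : Subfield k} {α γ : Type} [Fintype α] [Fintype γ] {a : α → k} {c : γ → k}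
    (ha : AlgebraicIndependent κ₀ a) (s : Finset k)
    (hc : frk κ₀ (s ∪ Finset.univ.image a) + Fintype.card γ ≤
      frk κ₀ ((s ∪ Finset.univ.image a) ∪ Finset.univ.image c))
    {n : ℕ} (hs : frk κ₀ s ≤ n) (O P : Finset k) (hO : O.card + n < Fintype.card α)
    (hgen : ∀ i, a i ∈ acl κ₀ ((((s ∪ Finset.univ.image c) ∪ O) ∪ P : Finset k) : Set k)) :
    ∃ y ∈ P, y ∉ acl κ₀ (((s ∪ Finset.univ.image c) ∪ O : Finset k) : Set k) := by
  by_contra hcon
  push Not at hcon
  have h1 : frk κ₀ (((s ∪ Finset.univ.image c) ∪ O) ∪ P) =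
      frk κ₀ ((s ∪ Finset.univ.image c) ∪ O) := by
    rw [frk_union_eq_iff]
    intro y hy
    exact mem_acl.1 (hcon y hy)
  have h2 : frk κ₀ ((s ∪ Finset.univ.image c) ∪ O) ≤ n + Fintype.card γ + O.card := by
    have h3 := frk_union_le_add_card κ₀ (s ∪ Finset.univ.image c) O
    have h4 := frk_union_le_add_card κ₀ s (Finset.univ.image c)
    have h5 : (Finset.univ.image c).card ≤ Fintype.card γ :=
      Finset.card_image_le.trans_eq Finset.card_univ
    omega
  have h3 : frk κ₀ (Finset.univ.image a) = Fintype.card α := (algebraicIndependent_iff_frk κ₀ a).1 ha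
  have h4 : frk κ₀ (Finset.univ.image a) ≤ frk κ₀ (s ∪ Finset.univ.image a) :=
    frk_mono κ₀ Finset.subset_union_right
  have h5 : frk κ₀ ((s ∪ Finset.univ.image a) ∪ Finset.univ.image c) ≤
      frk κ₀ (((s ∪ Finset.univ.image c) ∪ O) ∪ P) := by
    apply frk_le_of_algebraic
    intro y hy
    rw [← mem_acl]
    rcases Finset.mem_union.1 hy with hy | hy
    · rcases Finset.mem_union.1 hy with hy | hy
      · exact subset_acl _ _ (by simp [hy])
      · obtain ⟨i, -, rfl⟩ := Finset.mem_image.1 hy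
        exact hgen i
    · refine subset_acl _ _ ?_
      rw [Finset.mem_coe, Finset.mem_union, Finset.mem_union, Finset.mem_union]
      exact Or.inl (Or.inl (Or.inr hy))
  omega

open scoped Classical in
/-- Generic tuples over finitely many elements. -/
theorem exists_generic {κ₀ : Subfield k} (hbig : Big κ₀) {γ : Type} [Fintype γ] (T : Finset k)
    (Φ : MvPolynomial γ k) (hΦ : Φ ≠ 0) :
    ∃ c : γ → k, MvPolynomial.eval c Φ ≠ 0 ∧
      ∀ s ⊆ T, frk κ₀ s + Fintype.card γ ≤ frk κ₀ (s ∪ Finset.univ.image c) := by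
  let S : Finset k := T ∪ Φ.support.image fun m => Φ.coeff m
  have h1 : Big (acl κ₀ (S : Set k)) := acl_big S.finite_toSet hbig
  obtain ⟨c', hc'⟩ := h1 (Fintype.card γ)
  let e := Fintype.equivFin γ
  let c : γ → k := c' ∘ e
  have hc : AlgebraicIndependent (acl κ₀ (S : Set k)) c := hc'.comp e e.injective
  refine ⟨c, ?_, ?_⟩
  · intro h0
    have h2 : ∀ m, Φ.coeff m ∈ acl κ₀ (S : Set k) := by
      intro m
      by_cases hm : m ∈ Φ.support
      · exact subset_acl _ _ (Finset.mem_coe.2 (Finset.mem_union_right _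
          (Finset.mem_image_of_mem (fun m => Φ.coeff m) hm)))
      · rw [MvPolynomial.notMem_support_iff.1 hm]
        exact zero_mem _
    let Ψ : MvPolynomial γ (acl κ₀ (S : Set k)) :=
      ∑ m ∈ Φ.support, MvPolynomial.monomial m ⟨Φ.coeff m, h2 m⟩
    have h3 : MvPolynomial.map (algebraMap (acl κ₀ (S : Set k)) k) Ψ = Φ := by
      rw [map_sum]
      conv_rhs => rw [Φ.as_sum]
      refine Finset.sum_congr rfl fun m _ => ?_
      rw [MvPolynomial.map_monomial]
      rfl
    have h4 : MvPolynomial.aeval c Ψ = 0 := by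
      rw [MvPolynomial.aeval_def, ← MvPolynomial.eval_map, h3]
      exact h0
    have h5 : Ψ = 0 := by
      have h6 := hc
      rw [algebraicIndependent_iff] at h6
      exact h6 Ψ h4
    rw [h5, map_zero] at h3
    exact hΦ h3.symm
  · intro s hs
    let F := IntermediateField.adjoin κ₀ (S : Set k)
    have h2 : AlgebraicIndependent F c := by
      have h3 : AlgebraicIndependent (algebraicClosure F k) c := hc
      exact h3.restrictScalars (algebraMap F (algebraicClosure F k)).injective
    have h3 := (algebraicIndependent_adjoin_iff κ₀ S c).1 h2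
    have h4 := frk_union_sub κ₀ (s := s) (t := S) (fun y hy => Finset.mem_union_left _ (hs hy))
      (Finset.univ.image c)
    omega

end Core

section Change

variable {k K : Type u} [Field k] [Field K] [Algebra k K]

/-- Steinitz exchange over a subfield. -/
theorem exists_change (κ₁ : Subfield k) {D : ℕ} {B : Fin D → K} (hB : LinearIndependent k B)
    {ι : Type} [Fintype ι] {Q : ι → K} (hQ : LinearIndependent k Q)
    (hQB : ∀ q, Q q ∈ Submodule.span κ₁ (Set.range B)) :
    ∃ R : Finset (Fin D), Fintype.card ι + R.card = D ∧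
      ∀ i, B i ∈ Submodule.span κ₁ (Set.range (Sum.elim Q (fun r : R => B r))) := by
  classical
  have hB1 : LinearIndependent κ₁ B := hB.restrict_scalars' κ₁
  have hQ1 : LinearIndependent κ₁ Q := hQ.restrict_scalars' κ₁
  have hli := hQ1.linearIndepOn_id
  have hsub : Set.range Q ⊆ Set.range Q ∪ Set.range B := Set.subset_union_left
  let X := hli.extend hsub
  have hX1 : LinearIndepOn κ₁ id X := hli.linearIndepOn_extend hsub
  have hX2 : Set.range Q ⊆ X := hli.subset_extend hsub
  have hX3 : X ⊆ Set.range Q ∪ Set.range B := hli.extend_subset hsub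
  have hX4 : Set.range Q ∪ Set.range B ⊆ Submodule.span κ₁ X := hli.subset_span_extend hsub
  let R : Finset (Fin D) := Finset.univ.filter fun i => B i ∈ X ∧ B i ∉ Set.range Q
  let L : ι ⊕ R → K := Sum.elim Q (fun r : R => B r)
  have hLX : Set.range L = X := by
    apply Set.Subset.antisymm
    · rintro _ ⟨x, rfl⟩
      rcases x with q | r
      · exact hX2 ⟨q, rfl⟩
      · exact (Finset.mem_filter.1 r.2).2.1
    · intro y hy
      by_cases hq : y ∈ Set.range Q
      · obtain ⟨q, rfl⟩ := hq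
        exact ⟨Sum.inl q, rfl⟩
      · rcases hX3 hy with h | ⟨i, rfl⟩
        · exact absurd h hq
        · exact ⟨Sum.inr ⟨i, Finset.mem_filter.2 ⟨Finset.mem_univ _, hy, hq⟩⟩, rfl⟩
  have hinj : Function.Injective L := by
    rintro (q | r) (q' | r') h
    · exact congrArg _ (hQ.injective h)
    · exact absurd ⟨q, h⟩ (Finset.mem_filter.1 r'.2).2.2
    · exact absurd ⟨q', h.symm⟩ (Finset.mem_filter.1 r.2).2.2
    · exact congrArg _ (Subtype.ext (hB.injective h))
  have hL : LinearIndependent κ₁ L := by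
    rw [← linearIndepOn_id_range_iff hinj, hLX]
    exact hX1
  have hBL : ∀ i, B i ∈ Submodule.span κ₁ (Set.range L) := by
    intro i
    rw [hLX]
    exact hX4 (Or.inr ⟨i, rfl⟩)
  refine ⟨R, ?_, hBL⟩
  have h1 : Submodule.span κ₁ (Set.range L) = Submodule.span κ₁ (Set.range B) := by
    apply le_antisymm
    · rw [Submodule.span_le]
      rintro _ ⟨x, rfl⟩
      rcases x with q | r
      · exact hQB q
      · exact Submodule.subset_span ⟨r, rfl⟩
    · rw [Submodule.span_le]
      rintro _ ⟨i, rfl⟩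
      exact hBL i
  have h2 := finrank_span_eq_card hL
  have h3 := finrank_span_eq_card hB1
  rw [h1, h3, Fintype.card_sum, Fintype.card_fin, Fintype.card_coe] at h2
  exact h2.symm

/-- The monomials `g₀ ^ (N - 1 - j) g_i ^ (j + 1)` are linearly independent. -/
theorem linearIndependent_block {m N : ℕ} {g : Fin (m + 2) → K}
    (hu : AlgebraicIndependent k (fun l : Fin (m + 1) => g l.succ / g 0)) :
    g 0 ≠ 0 ∧ LinearIndependent k (fun q : Fin (m + 1) × Fin N =>
      g 0 ^ (N - 1 - q.2.1) * g q.1.succ ^ (q.2.1 + 1)) := by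
  have h0 : g 0 ≠ 0 := by
    intro h
    have h1 := hu.ne_zero 0
    rw [h, div_zero] at h1
    exact h1 rfl
  refine ⟨h0, ?_⟩
  have h1 : LinearIndependent k (fun q : Fin (m + 1) × Fin N =>
      (g q.1.succ / g 0) ^ (q.2.1 + 1)) := by
    have h2 := (MvPolynomial.basisMonomials (Fin (m + 1)) k).linearIndependent.map'
      (MvPolynomial.aeval (fun l : Fin (m + 1) => g l.succ / g 0)).toLinearMap
      (LinearMap.ker_eq_bot.2 hu)
    have h3 := h2.comp (fun q : Fin (m + 1) × Fin N => Finsupp.single q.1 (q.2.1 + 1)) (by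
      rintro ⟨i, j⟩ ⟨i', j'⟩ h
      rcases (Finsupp.single_eq_single_iff _ _ _ _).1 h with ⟨h4, h5⟩ | ⟨h4, -⟩
      · exact Prod.ext h4 (Fin.ext (by simpa using h5))
      · exact absurd h4 (Nat.succ_ne_zero _))
    have h4 : (fun q : Fin (m + 1) × Fin N => (g q.1.succ / g 0) ^ (q.2.1 + 1)) =
        ((MvPolynomial.aeval (fun l : Fin (m + 1) => g l.succ / g 0)).toLinearMap ∘
          (MvPolynomial.basisMonomials (Fin (m + 1)) k)) ∘
          fun q : Fin (m + 1) × Fin N => Finsupp.single q.1 (q.2.1 + 1) := by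
      funext q
      change _ = MvPolynomial.aeval _ (MvPolynomial.basisMonomials _ k
        (Finsupp.single q.1 (q.2.1 + 1)))
      rw [MvPolynomial.coe_basisMonomials, MvPolynomial.aeval_monomial, map_one, one_mul,
        Finsupp.prod_single_index]
      exact pow_zero _
    rw [h4]
    exact h3
  have h2 := h1.map' (LinearMap.mulLeft k (g 0 ^ N)) (LinearMap.ker_eq_bot.2
    (mul_right_injective₀ (pow_ne_zero N h0)))
  have h4 : (fun q : Fin (m + 1) × Fin N => g 0 ^ (N - 1 - q.2.1) * g q.1.succ ^ (q.2.1 + 1)) =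
      (LinearMap.mulLeft k (g 0 ^ N)) ∘ fun q : Fin (m + 1) × Fin N =>
        (g q.1.succ / g 0) ^ (q.2.1 + 1) := by
    funext q
    change _ = g 0 ^ N * (g q.1.succ / g 0) ^ (q.2.1 + 1)
    have h3 : g 0 ^ N = g 0 ^ (N - 1 - q.2.1) * g 0 ^ (q.2.1 + 1) := by
      rw [← pow_add]
      congr 1
      have := q.2.2
      omega
    rw [h3, div_pow, mul_assoc, mul_div_cancel₀ _ (pow_ne_zero _ h0)]
  rw [h4]
  exact h2

end Change

section Resid

variable {k K : Type u} [Field k] [Field K] [Algebra k K]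

/-- The elements with residue in the subfield `κ`. -/
def resRing (V : ValuationSubring K) (κ : Subfield k) (hV : Ov k V) : Subalgebra κ K where
  carrier := {z | ∃ β ∈ κ, V.valuation (z - algebraMap k K β) < 1}
  mul_mem' := by
    rintro z z' ⟨β, hβ, h⟩ ⟨β', hβ', h'⟩
    refine ⟨β * β', mul_mem hβ hβ', ?_⟩
    have h1 : z * z' - algebraMap k K (β * β') =
        (z - algebraMap k K β) * z' + algebraMap k K β * (z' - algebraMap k K β') := by
      rw [map_mul]; ring
    have hk : ∀ c : k, V.valuation (algebraMap k K c) ≤ 1 := fun c =>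
      (V.valuation_le_one_iff _).2 (hV c)
    have h2 : V.valuation z' ≤ 1 := by
      have h3 : z' = (z' - algebraMap k K β') + algebraMap k K β' := by ring
      rw [h3]
      exact (Valuation.map_add _ _ _).trans (max_le h'.le (hk _))
    rw [h1]
    refine Valuation.map_add_lt _ ?_ ?_
    · rw [map_mul]
      exact mul_lt_one_of_lt_of_le h h2
    · rw [map_mul, mul_comm]
      exact mul_lt_one_of_lt_of_le h' (hk _)
  add_mem' := by
    rintro z z' ⟨β, hβ, h⟩ ⟨β', hβ', h'⟩
    refine ⟨β + β', add_mem hβ hβ', ?_⟩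
    have h1 : z + z' - algebraMap k K (β + β') =
        (z - algebraMap k K β) + (z' - algebraMap k K β') := by
      rw [map_add]; ring
    rw [h1]
    exact Valuation.map_add_lt _ h h'
  algebraMap_mem' := by
    intro c
    refine ⟨c, c.2, ?_⟩
    have h1 : algebraMap κ K c = algebraMap k K (c : k) := rfl
    rw [h1, sub_self, map_zero]
    exact zero_lt_one

variable {V : ValuationSubring K} {κ : Subfield k} {hV : Ov k V}

theorem mem_resRing {z : K} :
    z ∈ resRing V κ hV ↔ ∃ β ∈ κ, V.valuation (z - algebraMap k K β) < 1 := Iff.rfl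

theorem resRing_of_lt {z : K} (hz : V.valuation z < 1) : z ∈ resRing V κ hV :=
  ⟨0, zero_mem _, by rw [map_zero, sub_zero]; exact hz⟩

/-- The valuation is trivial on the constants. -/
theorem val_const_eq (hV : Ov k V) {c : k} (hc : c ≠ 0) : V.valuation (algebraMap k K c) = 1 := by
  refine le_antisymm ((V.valuation_le_one_iff _).2 (hV c)) ?_
  have h6 := (V.valuation_le_one_iff _).2 (hV c⁻¹)
  rw [map_inv₀, map_inv₀] at h6
  have h5 : algebraMap k K c ≠ 0 := (map_ne_zero_iff _ (algebraMap k K).injective).2 hc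
  have h7 : V.valuation (algebraMap k K c) ≠ 0 := (Valuation.ne_zero_iff _).2 h5
  exact (inv_le_one₀ (zero_lt_iff.2 h7)).1 h6

theorem resid_unique (hV : Ov k V) {z : K} {β β' : k}
    (h : V.valuation (z - algebraMap k K β) < 1) (h' : V.valuation (z - algebraMap k K β') < 1) :
    β = β' := by
  by_contra hne
  have h1 := val_const_eq hV (sub_ne_zero.2 hne)
  have h2 : algebraMap k K (β - β') = (z - algebraMap k K β') - (z - algebraMap k K β) := by
    rw [map_sub]; ring
  rw [h2] at h1
  have h3 := Valuation.map_sub_lt V.valuation h' h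
  rw [h1] at h3
  exact lt_irrefl _ h3

theorem resRing_inv {z : K} (hz : z ∈ resRing V κ hV) (h1 : V.valuation z = 1) :
    z⁻¹ ∈ resRing V κ hV := by
  obtain ⟨β, hβ, h⟩ := hz
  have hz0 : z ≠ 0 := by
    rintro rfl
    rw [map_zero] at h1
    exact zero_ne_one h1
  have hβ0 : β ≠ 0 := by
    rintro rfl
    rw [map_zero, sub_zero, h1] at h
    exact lt_irrefl _ h
  refine ⟨β⁻¹, inv_mem hβ, ?_⟩
  have hβ1 : algebraMap k K β ≠ 0 := (map_ne_zero_iff _ (algebraMap k K).injective).2 hβ0
  have h2 : z⁻¹ - algebraMap k K β⁻¹ = -(z - algebraMap k K β) * (z⁻¹ * algebraMap k K β⁻¹) := by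
    rw [map_inv₀]
    field_simp
    ring
  rw [h2, map_mul, Valuation.map_neg, map_mul, map_inv₀, h1, inv_one, one_mul,
    val_const_eq hV (inv_ne_zero hβ0), mul_one]
  exact h

/-- The products of `N` elements of `span κ w`, divided by `w₀ ^ N`, have residues in `κ`. -/
theorem pow_div_mem_resRing {κ₀ : Subfield k} (hle : κ₀ ≤ κ) {w₀ : K} {M : Submodule κ₀ K}
    (hM : ∀ y ∈ M, y / w₀ ∈ resRing V κ hV)
    (N : ℕ) : ∀ z ∈ M ^ N, z / w₀ ^ N ∈ resRing V κ hV := by
  induction N with
  | zero =>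
    intro z hz
    rw [Submodule.pow_zero, Submodule.mem_one] at hz
    obtain ⟨c, rfl⟩ := hz
    rw [pow_zero, div_one]
    exact (resRing V κ hV).algebraMap_mem ⟨c, hle c.2⟩
  | succ N ih =>
    intro z hz
    rw [Submodule.pow_succ] at hz
    induction hz using Submodule.mul_induction_on' with
    | mem_mul_mem y hy y' hy' =>
      rw [pow_succ, mul_div_mul_comm]
      exact mul_mem (ih y hy) (hM y' hy')
    | add y _ y' _ h h' =>
      rw [add_div]
      exact add_mem h h'

end Resid

section Main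

variable {k K : Type u} [Field k] [Field K] [Algebra k K]

theorem span_pow_le {κ₀ κ₁ : Subfield k} (hle : κ₀ ≤ κ₁) {S T : Set K} {N : ℕ}
    (h : Submodule.span κ₀ S ^ N ≤ Submodule.span κ₀ T) :
    Submodule.span κ₁ S ^ N ≤ Submodule.span κ₁ T := by
  rw [Submodule.span_pow] at h ⊢
  rw [Submodule.span_le] at h ⊢
  intro y hy
  have h1 := h hy
  rw [SetLike.mem_coe] at h1 ⊢
  clear hy
  induction h1 using Submodule.span_induction with
  | mem z hz => exact Submodule.subset_span hz
  | zero => exact zero_mem _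
  | add z z' _ _ hz hz' => exact add_mem hz hz'
  | smul c z _ hz => exact Submodule.smul_mem _ (⟨c, hle c.2⟩ : κ₁) hz

theorem pow_le_subalgebra {R : Type*} [Field R] [Algebra R K] (S : Subalgebra R K)
    {M : Submodule R K} (h : ∀ y ∈ M, y ∈ S) (N : ℕ) : ∀ z ∈ M ^ N, z ∈ S := by
  induction N with
  | zero =>
    intro z hz
    rw [Submodule.pow_zero, Submodule.mem_one] at hz
    obtain ⟨c, rfl⟩ := hz
    exact S.algebraMap_mem c
  | succ N ih =>
    intro z hz
    rw [Submodule.pow_succ] at hz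
    induction hz using Submodule.mul_induction_on' with
    | mem_mul_mem y hy y' hy' => exact mul_mem (ih y hy) (h y' hy')
    | add y _ y' _ h h' => exact add_mem h h'

theorem acl_mono {κ₀ : Subfield k} {T T' : Set k} (h : T ⊆ T') : acl κ₀ T ≤ acl κ₀ T' := by
  intro y hy
  rw [mem_acl] at hy ⊢
  refine isAlgebraic_of_range (fun z => ⟨⟨(z : k), ?_⟩, rfl⟩) hy
  exact IntermediateField.adjoin.mono κ₀ T T' h z.2

theorem tup_div {V : ValuationSubring K} {m h : ℕ} {w : Fin h → K} {b : Fin h} (hb : w b ≠ 0)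
    (s : Fin h → k) (c : Fin (m + 2) × Fin h → k) (l : Fin (m + 2)) :
    tup (w b) (fun j => w j - s j • w b) c l / w b = (if l = 0 then 1 else 0) +
      ∑ j, algebraMap k K (c (l, j)) * (w j / w b - algebraMap k K (s j)) := by
  rw [TG15.tup, add_div, Finset.sum_div]
  congr 1
  · split_ifs
    · exact div_self hb
    · exact zero_div _
  · refine Finset.sum_congr rfl fun j _ => ?_
    rw [Algebra.smul_def, Algebra.smul_def, mul_div_assoc, sub_div, mul_div_assoc, div_self hb,
      mul_one]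

theorem val_tup {V : ValuationSubring K} (hV : Ov k V) {m h : ℕ} {w : Fin h → K} {b : Fin h}
    (hb : w b ≠ 0) {s : Fin h → k} (hs : ∀ i, V.valuation (w i / w b - algebraMap k K (s i)) < 1)
    (c : Fin (m + 2) × Fin h → k) (l : Fin (m + 2)) :
    V.valuation (tup (w b) (fun j => w j - s j • w b) c l / w b -
      (if l = 0 then 1 else 0)) < 1 := by
  rw [tup_div (V := V) hb, add_sub_cancel_left]
  refine Valuation.map_sum_lt _ one_ne_zero fun j _ => ?_
  rw [map_mul, mul_comm]
  exact mul_lt_one_of_lt_of_le (hs j) ((V.valuation_le_one_iff _).2 (hV _))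

/-- **R12 (b)**: the coefficients of the generic forms with respect to the basis of a point. -/
theorem exists_blocks {κ₀ : Subfield k} {E₀ : IntermediateField κ₀ K} {m : ℕ}
    {x : Fin (m + 1) → K} (hfd : FD κ₀ E₀ x) {N h D : ℕ} (hN : m + 1 < N)
    {w : Fin h → K} (hw : ∀ i, w i ∈ E₀) {B : Fin D → K} (hB : LinearIndependent k B)
    (hspan : Submodule.span κ₀ (Set.range B) = Submodule.span κ₀ (Set.range w) ^ N)
    {a : Fin (m + 2) × Fin D → k} (ha : AlgebraicIndependent κ₀ a)
    {V : ValuationSubring K} (hV : Ov k V) {b : Fin h} (hb : w b ≠ 0) {s : Fin h → k}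
    (hs : ∀ i, V.valuation (w i / w b - algebraMap k K (s i)) < 1)
    {c : Fin (m + 2) × Fin h → k}
    (hc : AlgebraicIndependent (acl κ₀ (Set.range s ∪ Set.range a)) c)
    {g : Fin (m + 2) → K} (hg : g = tup (w b) (fun j => w j - s j • w b) c)
    (hu : AlgebraicIndependent k (fun l : Fin (m + 1) => g l.succ / g 0))
    {H : Fin (m + 2) → K} (hH : ∀ l, H l = ∑ i, a (l, i) • B i)
    {j₀ : Fin (m + 2)} {v : Fin (m + 2) → k}
    (hj : V.valuation (H j₀) = V.valuation (g 0 ^ N))
    (hv : ∀ l, V.valuation (H l / H j₀ - algebraMap k K (v l)) < 1)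
    (l : Fin (m + 2)) (hl : l ≠ j₀) (i : Fin (m + 1)) :
    ∃ (T : Finset k) (α : Fin N → k) (h' : K),
      Set.range s ⊆ (T : Set k) ∧ (∃ j, α j ∉ acl κ₀ (T : Set k)) ∧
      (∀ j : Fin (m + 1), g j.succ / g 0 ∈ extE E₀ (acl κ₀ (T : Set k))) ∧
      H j₀ / g 0 ^ N ∈ extE E₀ (acl κ₀ (T : Set k)) ∧
      h' ∈ extE E₀ (acl κ₀ (T : Set k)) ∧
      (∀ l', l' ≠ l → H l' / H j₀ - algebraMap k K (v l') ∈
        extE E₀ (acl κ₀ (T : Set k))) ∧
      H j₀ / g 0 ^ N * (H l / H j₀ - algebraMap k K (v l)) =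
        h' + ∑ j : Fin N, algebraMap k K (α j) * (g i.succ / g 0) ^ (j.1 + 1) := by
  classical
  obtain ⟨h0, hQ⟩ := linearIndependent_block (N := N) hu
  let S : Finset k := Finset.univ.image s
  let C : Finset k := Finset.univ.image c
  have hSs : (S : Set k) = Set.range s := by simp [S]
  have hCc : (C : Set k) = Set.range c := by simp [C]
  -- the field of the point and of the tuple
  let κ₁ : Subfield k := acl κ₀ ((S ∪ C : Finset k) : Set k)
  have hsκ : ∀ i, s i ∈ κ₁ := fun i => subset_acl _ _ (by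
    rw [Finset.coe_union, hSs]; exact Or.inl ⟨i, rfl⟩)
  have hcκ : ∀ i, c i ∈ κ₁ := fun i => subset_acl _ _ (by
    rw [Finset.coe_union, hCc]; exact Or.inr ⟨i, rfl⟩)
  have hgl : ∀ l, g l ∈ Submodule.span κ₁ (Set.range w) := by
    intro l
    have hwm : ∀ j, w j ∈ Submodule.span κ₁ (Set.range w) := fun j =>
      Submodule.subset_span ⟨j, rfl⟩
    have hsm : ∀ (c : k) (hc : c ∈ κ₁) (z : K), z ∈ Submodule.span κ₁ (Set.range w) →
        c • z ∈ Submodule.span κ₁ (Set.range w) := fun c hc z hz =>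
      Submodule.smul_mem _ (⟨c, hc⟩ : κ₁) hz
    rw [hg, TG15.tup]
    refine add_mem ?_ (sum_mem fun j _ => hsm _ (hcκ _) _ (sub_mem (hwm j) (hsm _ (hsκ _) _ (hwm b))))
    split_ifs
    · exact hwm b
    · exact zero_mem _
  have hspan1 : Submodule.span κ₁ (Set.range w) ^ N ≤ Submodule.span κ₁ (Set.range B) :=
    span_pow_le (le_acl _ _) hspan.ge
  have hQB : ∀ q : Fin (m + 1) × Fin N, g 0 ^ (N - 1 - q.2.1) * g q.1.succ ^ (q.2.1 + 1) ∈
      Submodule.span κ₁ (Set.range B) := by
    intro q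
    apply hspan1
    have h1 : Submodule.span κ₁ (Set.range w) ^ N = Submodule.span κ₁ (Set.range w) ^
        ((N - 1 - q.2.1) + (q.2.1 + 1)) := by
      congr 1
      have := q.2.2
      omega
    rw [h1, Submodule.pow_add _ (Nat.succ_ne_zero _)]
    exact Submodule.mul_mem_mul (Submodule.pow_mem_pow _ (hgl 0) _)
      (Submodule.pow_mem_pow _ (hgl _) _)
  obtain ⟨R, hR, hBL⟩ := exists_change κ₁ hB hQ hQB
  rw [Fintype.card_prod, Fintype.card_fin, Fintype.card_fin] at hR
  let Q : Fin (m + 1) × Fin N → K := fun q => g 0 ^ (N - 1 - q.2.1) * g q.1.succ ^ (q.2.1 + 1)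
  let L : (Fin (m + 1) × Fin N) ⊕ R → K := Sum.elim Q (fun r : R => B r)
  have hLB : ∀ y, L y ∈ Submodule.span κ₁ (Set.range B) := by
    rintro (q | r)
    · exact hQB q
    · exact Submodule.subset_span ⟨r, rfl⟩
  have h1 : ∀ i, ∃ M : (Fin (m + 1) × Fin N) ⊕ R → κ₁, ∑ y, M y • L y = B i := fun i =>
    (Submodule.mem_span_range_iff_exists_fun κ₁).1 (hBL i)
  have h2 : ∀ y, ∃ M : Fin D → κ₁, ∑ i, M i • B i = L y := fun y =>
    (Submodule.mem_span_range_iff_exists_fun κ₁).1 (hLB y)
  choose M hM using h1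
  choose M' hM' using h2
  -- the new coefficients
  let A : Fin (m + 2) → (Fin (m + 1) × Fin N) ⊕ R → k := fun l y =>
    ∑ i, a (l, i) * (M i y : k)
  have hHA : ∀ l, H l = ∑ y, A l y • L y := by
    intro l
    rw [hH]
    have h3 : ∀ i, a (l, i) • B i = ∑ y, (a (l, i) * (M i y : k)) • L y := by
      intro i
      rw [← hM i, Finset.smul_sum]
      refine Finset.sum_congr rfl fun y _ => ?_
      rw [mul_smul]
      rfl
    rw [Finset.sum_congr rfl fun i _ => h3 i, Finset.sum_comm]
    refine Finset.sum_congr rfl fun y _ => ?_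
    rw [Finset.sum_smul]
  have haA : ∀ l i, a (l, i) = ∑ y, A l y * (M' y i : k) := by
    intro l
    have h3 : ∑ i, a (l, i) • B i = ∑ i, (∑ y, A l y * (M' y i : k)) • B i := by
      rw [← hH, hHA]
      have h4 : ∀ y, A l y • L y = ∑ i, (A l y * (M' y i : k)) • B i := by
        intro y
        rw [← hM' y, Finset.smul_sum]
        refine Finset.sum_congr rfl fun i _ => ?_
        rw [mul_smul]
        rfl
      rw [Finset.sum_congr rfl fun y _ => h4 y, Finset.sum_comm]
      refine Finset.sum_congr rfl fun i _ => ?_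
      rw [Finset.sum_smul]
    intro i
    have h5 : ∑ i, (a (l, i) - ∑ y, A l y * (M' y i : k)) • B i = 0 := by
      simp_rw [sub_smul]
      rw [Finset.sum_sub_distrib, h3, sub_self]
    exact sub_eq_zero.1 (Fintype.linearIndependent_iff.1 hB _ h5 i)
  -- the block and the others
  let bl : Fin N → Fin (m + 2) × ((Fin (m + 1) × Fin N) ⊕ R) := fun j => (l, Sum.inl (i, j))
  have hbl : Function.Injective bl := by
    intro j j' h
    have h6 := congrArg Prod.snd h
    exact (Prod.ext_iff.1 (Sum.inl_injective h6)).2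
  let Bl := Finset.univ.image bl
  have hBl : Bl.card = N := by
    rw [Finset.card_image_of_injective _ hbl, Finset.card_univ, Fintype.card_fin]
  let O : Finset k := (Blᶜ).image fun p => A p.1 p.2
  let P : Finset k := Finset.univ.image fun j : Fin N => A l (Sum.inl (i, j))
  have hOP : ∀ l' y, A l' y ∈ ((((S ∪ C) ∪ O) ∪ P : Finset k) : Set k) := by
    intro l' y
    rw [Finset.mem_coe, Finset.mem_union]
    by_cases hp : (l', y) ∈ Bl
    · obtain ⟨j, -, hj⟩ := Finset.mem_image.1 hp
      have h6 : l = l' := congrArg Prod.fst hj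
      have h7 : Sum.inl (i, j) = y := congrArg Prod.snd hj
      subst h6 h7
      exact Or.inr (Finset.mem_image_of_mem (fun j : Fin N => A l (Sum.inl (i, j)))
        (Finset.mem_univ j))
    · exact Or.inl (Finset.mem_union_right _ (Finset.mem_image_of_mem
        (fun p : Fin (m + 2) × ((Fin (m + 1) × Fin N) ⊕ R) => A p.1 p.2)
        (Finset.mem_compl.2 hp)))
  have hO : O.card + (m + 1) < Fintype.card (Fin (m + 2) × Fin D) := by
    have h6 : O.card ≤ (Blᶜ).card := Finset.card_image_le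
    rw [Finset.card_compl, hBl, Fintype.card_prod, Fintype.card_sum, Fintype.card_prod,
      Fintype.card_fin, Fintype.card_fin, Fintype.card_fin, Fintype.card_coe, hR] at h6
    rw [Fintype.card_prod, Fintype.card_fin, Fintype.card_fin]
    have h7 : N ≤ D := by nlinarith
    have h8 : D ≤ (m + 2) * D := by nlinarith
    omega
  have hfs : frk κ₀ S ≤ m + 1 := by
    refine hfd.frk_res_le hV S ?_
    rw [hSs]
    rintro _ ⟨i, rfl⟩
    exact ⟨w i / w b, div_mem (hw i) (hw b), hs i⟩
  have hcf : frk κ₀ (S ∪ Finset.univ.image a) + Fintype.card (Fin (m + 2) × Fin h) ≤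
      frk κ₀ ((S ∪ Finset.univ.image a) ∪ C) := by
    let F := IntermediateField.adjoin κ₀ ((S ∪ Finset.univ.image a : Finset k) : Set k)
    have h6 : AlgebraicIndependent (algebraicClosure F k) c := by
      have h7 : ((S ∪ Finset.univ.image a : Finset k) : Set k) = Set.range s ∪ Set.range a := by
        rw [Finset.coe_union, hSs]
        simp
      have h8 : AlgebraicIndependent
          (acl κ₀ ((S ∪ Finset.univ.image a : Finset k) : Set k)) c := by
        rw [h7]
        exact hc
      exact h8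
    have h7 : AlgebraicIndependent F c :=
      h6.restrictScalars (algebraMap F (algebraicClosure F k)).injective
    exact ((algebraicIndependent_adjoin_iff κ₀ _ c).1 h7).ge
  let T : Finset k := (S ∪ C) ∪ O
  have hκT : κ₁ ≤ acl κ₀ (T : Set k) := acl_mono (by
    rw [Finset.coe_subset]
    exact Finset.subset_union_left)
  have hgen : ∀ p, a p ∈ acl κ₀ ((((S ∪ C) ∪ O) ∪ P : Finset k) : Set k) := by
    rintro ⟨l', i'⟩
    rw [haA]
    refine sum_mem fun y _ => mul_mem (subset_acl _ _ (hOP l' y)) ?_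
    exact acl_mono (Finset.coe_subset.2 Finset.subset_union_left) (hκT (M' y i').2)
  obtain ⟨y, hyP, hy⟩ := block_core ha S hcf hfs O P hO hgen
  obtain ⟨j, -, rfl⟩ := Finset.mem_image.1 hyP
  have hAT : ∀ l' y, (l', y) ∉ Bl → A l' y ∈ acl κ₀ (T : Set k) := fun l' y hp =>
    subset_acl _ _ (Finset.mem_coe.2 (Finset.mem_union_right _ (Finset.mem_image_of_mem
        (fun p : Fin (m + 2) × ((Fin (m + 1) × Fin N) ⊕ R) => A p.1 p.2)
        (Finset.mem_compl.2 hp))))
  have hAl : ∀ l' y, l' ≠ l → A l' y ∈ acl κ₀ (T : Set k) := fun l' y hne => hAT l' y (by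
    intro hp
    obtain ⟨j, -, hj⟩ := Finset.mem_image.1 hp
    exact hne (congrArg Prod.fst hj).symm)
  have hAr : ∀ l' r, A l' (Sum.inr r) ∈ acl κ₀ (T : Set k) := fun l' r => hAT l' _ (by
    intro hp
    obtain ⟨j, -, hj⟩ := Finset.mem_image.1 hp
    exact Sum.inl_ne_inr (congrArg Prod.snd hj))
  -- the residues
  have hgl0 : ∀ l, V.valuation (g l / w b - (if l = 0 then 1 else 0)) < 1 := by
    intro l
    rw [hg]
    exact val_tup hV hb hs c l
  have hg0w : V.valuation (g 0 / w b) = 1 := by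
    have h6 := hgl0 0
    rw [if_pos rfl] at h6
    have h7 : g 0 / w b = 1 + (g 0 / w b - 1) := by ring
    rw [h7, Valuation.map_one_add_of_lt _ h6]
  have hug : ∀ j : Fin (m + 1), V.valuation (g j.succ / g 0) < 1 := by
    intro j
    have h6 := hgl0 j.succ
    rw [if_neg (Fin.succ_ne_zero j), sub_zero] at h6
    have h7 : g j.succ / g 0 = (g j.succ / w b) / (g 0 / w b) := by
      field_simp
    rw [h7, map_div₀, hg0w, div_one]
    exact h6
  have hQg : ∀ q : Fin (m + 1) × Fin N, Q q / g 0 ^ N = (g q.1.succ / g 0) ^ (q.2.1 + 1) := by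
    intro q
    have h3 : g 0 ^ N = g 0 ^ (N - 1 - q.2.1) * g 0 ^ (q.2.1 + 1) := by
      rw [← pow_add]
      congr 1
      have := q.2.2
      omega
    change g 0 ^ (N - 1 - q.2.1) * g q.1.succ ^ (q.2.1 + 1) / g 0 ^ N = _
    rw [h3, div_pow, mul_div_mul_left _ _ (pow_ne_zero _ h0)]
  have hBM : ∀ i, B i ∈ Submodule.span κ₀ (Set.range w) ^ N := fun i => by
    rw [← hspan]
    exact Submodule.subset_span ⟨i, rfl⟩
  have hHg : ∀ l, H l / g 0 ^ N = ∑ y, algebraMap k K (A l y) * (L y / g 0 ^ N) := by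
    intro l
    rw [hHA, Finset.sum_div]
    refine Finset.sum_congr rfl fun y _ => ?_
    rw [Algebra.smul_def, mul_div_assoc]
  let κ' : Subfield k := acl κ₀ (T : Set k)
  let PR := resRing V κ' hV
  have hg0P : g 0 / w b ∈ PR := by
    refine ⟨1, one_mem _, ?_⟩
    have h6 := hgl0 0
    rw [if_pos rfl] at h6
    rw [map_one]
    exact h6
  have hBP : ∀ i, B i / g 0 ^ N ∈ PR := by
    intro i
    have h6 : B i / w b ^ N ∈ PR := by
      refine pow_div_mem_resRing (le_acl κ₀ (T : Set k)) ?_ N _ (hBM i)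
      intro y hy
      induction hy using Submodule.span_induction with
      | mem z hz =>
        obtain ⟨j, rfl⟩ := hz
        exact ⟨s j, hκT (hsκ j), hs j⟩
      | zero =>
        rw [zero_div]
        exact zero_mem _
      | add z z' _ _ hz hz' =>
        rw [add_div]
        exact add_mem hz hz'
      | smul c z _ hz =>
        have h7 : c • z / w b = (algebraMap κ' K ⟨(c : k), le_acl κ₀ (T : Set k) c.2⟩) *
            (z / w b) := by
          rw [Algebra.smul_def, mul_div_assoc]
          rfl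
        rw [h7]
        exact mul_mem (Subalgebra.algebraMap_mem _ _) hz
    have h7 : B i / g 0 ^ N = B i / w b ^ N * ((g 0 / w b)⁻¹) ^ N := by
      rw [inv_div, div_pow]
      field_simp
    rw [h7]
    exact mul_mem h6 (pow_mem (resRing_inv hg0P hg0w) N)
  have hHP : ∀ l, H l / g 0 ^ N ∈ PR := by
    intro l
    rw [hHg]
    refine sum_mem ?_
    rintro (q | r) -
    · refine resRing_of_lt ?_
      change V.valuation (algebraMap k K _ * (Q q / g 0 ^ N)) < 1
      rw [hQg, map_mul, mul_comm]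
      refine mul_lt_one_of_lt_of_le ?_ ((V.valuation_le_one_iff _).2 (hV _))
      rw [map_pow]
      exact pow_lt_one₀ zero_le (hug _) (Nat.succ_ne_zero _)
    · exact mul_mem (Subalgebra.algebraMap_mem PR (⟨_, hAr l r⟩ : κ')) (hBP r)
  have hHj1 : V.valuation (H j₀ / g 0 ^ N) = 1 := by
    rw [map_div₀, hj]
    exact div_self ((Valuation.ne_zero_iff _).2 (pow_ne_zero _ h0))
  have hHj0 : H j₀ ≠ 0 := by
    intro h
    rw [h, zero_div, map_zero] at hHj1
    exact zero_ne_one hHj1
  have hg0N : g 0 ^ N ≠ 0 := pow_ne_zero _ h0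
  have hvκ : ∀ l, v l ∈ κ' := by
    intro l
    have h6 : H l / H j₀ ∈ PR := by
      have h7 : H l / H j₀ = (H l / g 0 ^ N) * (H j₀ / g 0 ^ N)⁻¹ := by
        rw [inv_div]
        field_simp
      rw [h7]
      exact mul_mem (hHP l) (resRing_inv (hHP j₀) hHj1)
    obtain ⟨β, hβ, h7⟩ := h6
    rw [resid_unique hV (hv l) h7]
    exact hβ
  -- the elements
  let E₁ := extE E₀ κ'
  have hE0 : ∀ e ∈ E₀, e ∈ E₁ := fun e he => IntermediateField.subset_adjoin _ _ he
  have hEc : ∀ c ∈ κ', algebraMap k K c ∈ E₁ := fun c hc => E₁.algebraMap_mem ⟨c, hc⟩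
  have hgE : ∀ l, g l ∈ E₁ := by
    intro l
    rw [hg, TG15.tup]
    refine add_mem ?_ (sum_mem fun j _ => ?_)
    · split_ifs
      · exact hE0 _ (hw b)
      · exact zero_mem _
    · rw [Algebra.smul_def, Algebra.smul_def]
      exact mul_mem (hEc _ (hκT (hcκ _))) (sub_mem (hE0 _ (hw j))
        (mul_mem (hEc _ (hκT (hsκ _))) (hE0 _ (hw b))))
  have hBE : ∀ i, B i ∈ E₁ := by
    intro i
    refine hE0 _ (pow_le_subalgebra E₀.toSubalgebra (M := Submodule.span κ₀ (Set.range w)) ?_ N _
      (hBM i))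
    intro y hy
    have h6 : Submodule.span κ₀ (Set.range w) ≤ Subalgebra.toSubmodule E₀.toSubalgebra := by
      rw [Submodule.span_le]
      rintro _ ⟨j, rfl⟩
      exact hw j
    exact h6 hy
  have hLE : ∀ y, L y / g 0 ^ N ∈ E₁ := by
    rintro (q | r)
    · change Q q / g 0 ^ N ∈ E₁
      rw [hQg]
      exact pow_mem (div_mem (hgE _) (hgE _)) _
    · exact div_mem (hBE r) (pow_mem (hgE 0) N)
  have hHE : ∀ l', l' ≠ l → H l' / g 0 ^ N ∈ E₁ := by
    intro l' hl'
    rw [hHg]
    exact sum_mem fun y _ => mul_mem (hEc _ (hAl l' y hl')) (hLE y)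
  let Yb : Finset ((Fin (m + 1) × Fin N) ⊕ R) :=
    Finset.univ.image fun j : Fin N => Sum.inl (i, j)
  have hYb : ∀ y ∈ Ybᶜ, A l y ∈ κ' := by
    intro y hy
    refine hAT l y ?_
    intro hp
    obtain ⟨j, -, hj⟩ := Finset.mem_image.1 hp
    rw [Finset.mem_compl] at hy
    exact hy (Finset.mem_image.2 ⟨j, Finset.mem_univ _, congrArg Prod.snd hj⟩)
  refine ⟨T, fun j => A l (Sum.inl (i, j)),
    ∑ y ∈ Ybᶜ, algebraMap k K (A l y) * (L y / g 0 ^ N) -
      algebraMap k K (v l) * (H j₀ / g 0 ^ N), ?_, ⟨j, hy⟩, ?_, hHE j₀ hl.symm, ?_, ?_, ?_⟩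
  · rw [← hSs, Finset.coe_subset]
    exact fun z hz => Finset.mem_union_left _ (Finset.mem_union_left _ hz)
  · exact fun j => div_mem (hgE _) (hgE _)
  · exact sub_mem (sum_mem fun y hy => mul_mem (hEc _ (hYb y hy)) (hLE y))
      (mul_mem (hEc _ (hvκ l)) (hHE j₀ hl.symm))
  · intro l' hl'
    have h7 : H l' / H j₀ = (H l' / g 0 ^ N) / (H j₀ / g 0 ^ N) := by
      field_simp
    rw [h7]
    exact sub_mem (div_mem (hHE l' hl') (hHE j₀ hl.symm)) (hEc _ (hvκ l'))
  · have h6 : H j₀ / g 0 ^ N * (H l / H j₀ - algebraMap k K (v l)) =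
        H l / g 0 ^ N - algebraMap k K (v l) * (H j₀ / g 0 ^ N) := by
      field_simp
    have h7 : ∑ y ∈ Yb, algebraMap k K (A l y) * (L y / g 0 ^ N) =
        ∑ j : Fin N, algebraMap k K (A l (Sum.inl (i, j))) * (g i.succ / g 0) ^ (j.1 + 1) := by
      rw [Finset.sum_image]
      · refine Finset.sum_congr rfl fun j _ => ?_
        change _ * (Q (i, j) / g 0 ^ N) = _
        rw [hQg]
      · intro j _ j' _ h
        exact (Prod.ext_iff.1 (Sum.inl_injective h)).2
    rw [h6, hHg l, ← Finset.sum_add_sum_compl Yb, h7]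
    ring

end Main

end Pool.Agent.TGJ
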