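import Mathlib

/-!
# TANK G: the cone lemma (transversality by transcendence degree)

If a cone over a field `F` meets the linear space `ℓ = 0` only in `0`, then the coordinates of
every zero `c` of the cone (in any extension field) are integral over `F[ℓ(c)]`.
-/

set_option autoImplicit false

namespace Pool.Agent.TGc

open MvPolynomial

variable {F L σ ι : Type*} [Field F] [Field L] [Algebra F L] [Finite σ]

/-- A homogeneous polynomial whose degree is large is in an ideal containing powers of the
variables. -/
theorem mem_of_degree {J : Ideal (MvPolynomial σ F)} {m : σ → ℕ} (hm : ∀ i, (X i) ^ m i ∈ J)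
    {d : ℕ} (hd : (∑ᶠ i, m i) + 1 ≤ d) {g : MvPolynomial σ F} (hg : g.IsHomogeneous d) :
    g ∈ J := by
  classical
  have _ := Fintype.ofFinite σ
  rw [finsum_eq_sum_of_fintype] at hd
  rw [g.as_sum]
  refine J.sum_mem fun α hα => ?_
  have h1 : ∑ i, α i = d := by
    have h2 := hg (mem_support_iff.1 hα)
    rw [← h2, Finsupp.weight_apply, Finsupp.sum_fintype]
    · simp
    · simp
  obtain ⟨i, hi⟩ : ∃ i, m i ≤ α i := by
    by_contra hcon
    have h3 : ∑ i, α i ≤ ∑ i, m i :=
      Finset.sum_le_sum fun i _ => (not_le.1 fun h => hcon ⟨i, h⟩).le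
    omega
  have h5 : α - Finsupp.single i (m i) + Finsupp.single i (m i) = α := by
    ext j
    rw [Finsupp.add_apply, Finsupp.tsub_apply]
    by_cases hj : j = i
    · subst hj
      rw [Finsupp.single_eq_same]; omega
    · rw [Finsupp.single_eq_of_ne hj]; omega
  have h4 : monomial α (coeff α g) =
      monomial (α - Finsupp.single i (m i)) (coeff α g) * (X i) ^ m i := by
    rw [X_pow_eq_monomial, monomial_mul, mul_one, h5]
  rw [h4]
  exact J.mul_mem_left _ (hm i)

omit [Finite σ] in
/-- The component of degree `d` of `a * h`, for `h` homogeneous of degree `e`. -/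
theorem component_mul {a h : MvPolynomial σ F} {e d : ℕ} (hh : h.IsHomogeneous e) :
    homogeneousComponent d (a * h) =
      ∑ i ∈ Finset.range (a.totalDegree + 1), if d = i + e then homogeneousComponent i a * h
        else 0 := by
  conv_lhs => rw [← sum_homogeneousComponent a, Finset.sum_mul, map_sum]
  refine Finset.sum_congr rfl fun i _ => ?_
  exact homogeneousComponent_of_mem ((homogeneousComponent_isHomogeneous i a).mul hh)

/-- The cone lemma. -/
theorem isIntegral_of_cone (c : σ → L) (I : Set (MvPolynomial σ F))
    (hI : ∀ f ∈ I, ∃ d, f.IsHomogeneous d) (h0 : ∀ f ∈ I, aeval c f = 0)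
    (ℓ : ι → MvPolynomial σ F) (hℓ : ∀ j, (ℓ j).IsHomogeneous 1)
    (K : Type*) [Field K] [Algebra F K] [IsAlgClosed K]
    (hz : ∀ z : σ → K, (∀ f ∈ I, aeval z f = 0) → (∀ j, aeval z (ℓ j) = 0) → z = 0) (i : σ) :
    IsIntegral (Algebra.adjoin F (Set.range fun j => aeval c (ℓ j))) (c i) := by
  classical
  set J : Ideal (MvPolynomial σ F) := Ideal.span (I ∪ Set.range ℓ) with hJ
  have hX : ∀ i, ∃ m, (X i : MvPolynomial σ F) ^ m ∈ J := by
    intro i
    have h1 : (X i : MvPolynomial σ F) ∈ J.radical := by
      rw [← vanishingIdeal_zeroLocus_eq_radical (K := K) J, mem_vanishingIdeal_iff]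
      intro x hx
      have h2 : x = 0 := hz x (fun f hf => hx f (Ideal.subset_span (Or.inl hf)))
        (fun j => hx _ (Ideal.subset_span (Or.inr ⟨j, rfl⟩)))
      rw [h2, aeval_X, Pi.zero_apply]
    exact h1
  choose m hm using hX
  set d₀ := (∑ᶠ i, m i) + 1 with hd₀
  set B := Algebra.adjoin F (Set.range fun j => aeval c (ℓ j)) with hB
  set S : Set L := (fun α : σ →₀ ℕ => aeval c (monomial α (1 : F))) '' {α | α.degree < d₀} with hS
  set W : Submodule B L := Submodule.span B S with hW
  have hWF : ∀ (a : F) {y : L}, y ∈ W → algebraMap F L a * y ∈ W := by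
    intro a y hy
    have h1 := W.smul_mem (algebraMap F B a) hy
    rwa [Algebra.smul_def] at h1
  have hWB : ∀ b ∈ B, ∀ {y : L}, y ∈ W → y * b ∈ W := by
    intro b hb y hy
    have h1 := W.smul_mem (⟨b, hb⟩ : B) hy
    rw [Algebra.smul_def] at h1
    rw [mul_comm]
    exact h1
  have key : ∀ d : ℕ, ∀ g : MvPolynomial σ F, g.IsHomogeneous d → aeval c g ∈ W := by
    intro d
    induction d using Nat.strong_induction_on with
    | _ d ih =>
      intro g hg
      by_cases hd : d < d₀
      · rw [g.as_sum, map_sum]
        refine W.sum_mem fun α hα => ?_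
        have h1 : monomial α (coeff α g) = C (coeff α g) * monomial α 1 := by
          rw [C_mul_monomial, mul_one]
        rw [h1, map_mul, aeval_C]
        refine hWF _ (Submodule.subset_span ⟨α, ?_, rfl⟩)
        have h2 := hg (mem_support_iff.1 hα)
        rw [Finsupp.degree_eq_weight_one]
        exact h2.trans_lt hd
      · have hgJ : g ∈ J := mem_of_degree hm (not_lt.1 hd) hg
        have hq : ∀ h ∈ J, ∀ a, aeval c (homogeneousComponent d (a * h)) ∈ W := by
          intro h hh
          induction hh using Submodule.span_induction with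
          | mem h hh =>
            intro a
            rcases hh with hh | ⟨j, rfl⟩
            · obtain ⟨e, he⟩ := hI h hh
              rw [component_mul he, map_sum]
              refine W.sum_mem fun i _ => ?_
              split_ifs
              · rw [map_mul, h0 h hh, mul_zero]; exact W.zero_mem
              · rw [map_zero]; exact W.zero_mem
            · rw [component_mul (hℓ j), map_sum]
              refine W.sum_mem fun i _ => ?_
              split_ifs with hdi
              · rw [map_mul]
                exact hWB _ (Algebra.subset_adjoin ⟨j, rfl⟩)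
                  (ih i (by omega) _ (homogeneousComponent_isHomogeneous i a))
              · rw [map_zero]; exact W.zero_mem
          | zero => intro a; rw [mul_zero, map_zero, map_zero]; exact W.zero_mem
          | add x y _ _ hx hy =>
            intro a
            rw [mul_add, map_add, map_add]
            exact W.add_mem (hx a) (hy a)
          | smul b x _ hx =>
            intro a
            rw [smul_eq_mul, ← mul_assoc]
            exact hx (a * b)
        have h1 := hq g hgJ 1
        rwa [one_mul, homogeneousComponent_eq_self hg] at h1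
  have hmono : ∀ α : σ →₀ ℕ, (monomial α (1 : F)).IsHomogeneous α.degree :=
    fun α => isHomogeneous_monomial _ rfl
  have hfin : S.Finite := by
    refine Set.Finite.image _ ?_
    have _ := Fintype.ofFinite σ
    refine Set.Finite.subset (Set.finite_Iic (Finsupp.equivFunOnFinite.symm fun _ : σ => d₀)) ?_
    intro α hα i
    have h1 : α i ≤ α.degree := Finsupp.le_degree i α
    have h2 : α.degree < d₀ := hα
    exact h1.trans h2.le
  refine isIntegral_of_smul_mem_submodule W ?_ (Submodule.fg_span hfin) _ ?_
  · intro hbot
    have h1 : (1 : L) ∈ W := by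
      refine Submodule.subset_span ⟨0, ?_, ?_⟩
      · change Finsupp.degree 0 < d₀
        rw [map_zero]; omega
      · change aeval c (1 : MvPolynomial σ F) = 1
        rw [map_one]
    rw [hbot, Submodule.mem_bot] at h1
    exact one_ne_zero h1
  · intro y hy
    induction hy using Submodule.span_induction with
    | mem y hy =>
      obtain ⟨α, -, rfl⟩ := hy
      have h1 : c i • aeval c (monomial α (1 : F)) = aeval c (X i * monomial α (1 : F)) := by
        rw [map_mul, aeval_X, smul_eq_mul]
      rw [h1]
      exact key _ _ ((isHomogeneous_X F i).mul (hmono α))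
    | zero => rw [smul_zero]; exact W.zero_mem
    | add x y _ _ hx hy => rw [smul_add]; exact W.add_mem hx hy
    | smul b x _ hx =>
      rw [smul_comm]
      exact W.smul_mem b hx

end Pool.Agent.TGc
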