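import Pool.Agent.Lib.TG_h86.Gen

/-!
# TANK G: one of `n + 1` groups of generic coefficients stays generic over a point
-/

set_option autoImplicit false

namespace Pool.Agent.TGc

universe u

/-- If a finite family is dependent, the field generated has smaller transcendence degree. -/
theorem trdeg_lt_of_not_indep {F L : Type u} [Field F] [Field L] [Algebra F L] {ι : Type}
    [Fintype ι] (x : ι → L) (hx : ¬ AlgebraicIndependent F x) :
    Algebra.trdeg F (IntermediateField.adjoin F (Set.range x)) < (Fintype.card ι : Cardinal.{u}) := by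
  classical
  by_contra hcon
  rw [not_lt] at hcon
  apply hx
  set G := IntermediateField.adjoin F (Set.range x) with hG
  let x' : ι → G := fun i => ⟨x i, IntermediateField.subset_adjoin _ _ ⟨i, rfl⟩⟩
  have h1 : Algebra.IsAlgebraic (IntermediateField.adjoin F (Set.range x')) G := by
    refine ⟨fun g => ?_⟩
    refine LU3.R2b.alg_transfer G (Set.range x') (Set.range x) ?_ g ?_
    · rintro y ⟨i, rfl⟩
      exact ⟨x' i, IntermediateField.subset_adjoin _ _ ⟨i, rfl⟩, rfl⟩
    · exact isAlgebraic_algebraMap (⟨(g : L), g.2⟩ : IntermediateField.adjoin F (Set.range x))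
  have h2 : Algebra.IsAlgebraic (Algebra.adjoin F (Set.range x')) G := by
    constructor
    intro g
    rw [← IntermediateField.isAlgebraic_adjoin_iff]
    exact h1.isAlgebraic g
  have h3 : IsTranscendenceBasis F x' := by
    refine Algebra.IsAlgebraic.isTranscendenceBasis_of_lift_le_trdeg_of_finite F x' ?_
    have h4 : Cardinal.lift.{u} (Cardinal.mk ι) = (Fintype.card ι : Cardinal.{u}) := by
      rw [Cardinal.mk_fintype, Cardinal.lift_natCast]
    rw [h4]
    simpa using hcon
  exact h3.1.map' (f := G.val) G.val.injective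

variable {k₀ k : Type u} [Field k₀] [Field k] [Algebra k₀ k] {n : ℕ} {σ : ℕ → Type}

/-- The field generated by `F` and the groups `< j`. -/
noncomputable def fld (F : IntermediateField k₀ k) (c : (Σ j : Fin (n + 1), σ j) → k) (j : ℕ) :
    IntermediateField k₀ k :=
  F ⊔ IntermediateField.adjoin k₀ (c '' {s | (s.1 : ℕ) < j})

/-- If `c` is algebraically independent over `k₀` and `F` has transcendence degree `≤ n` over `k₀`,
then one of the `n + 1` groups of `c` is algebraically independent over `F` and the groups
before it. -/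
theorem exists_group [∀ j, Fintype (σ j)] (c : (Σ j : Fin (n + 1), σ j) → k)
    (hc : AlgebraicIndependent k₀ c) (F : IntermediateField k₀ k)
    (hF : Algebra.trdeg k₀ F ≤ n) :
    ∃ j : Fin (n + 1), AlgebraicIndependent (fld F c j) fun a : σ j => c ⟨j, a⟩ := by
  classical
  by_contra hcon
  push Not at hcon
  have key : ∀ j : ℕ, j ≤ n + 1 → ∃ t : ℕ, Algebra.trdeg k₀ (fld F c j) = t ∧
      t + j ≤ n + ∑ i ∈ Finset.range j, Fintype.card (σ i) := by
    intro j
    induction j with
    | zero =>
      intro _
      have h1 : fld F c 0 = F := by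
        rw [fld]
        have h2 : (c '' {s | (s.1 : ℕ) < 0}) = ∅ := by
          simp
        rw [h2, IntermediateField.adjoin_empty, sup_bot_eq]
      rw [h1]
      have h2 : Algebra.trdeg k₀ F < Cardinal.aleph0 := hF.trans_lt Cardinal.natCast_lt_aleph0
      obtain ⟨t, ht⟩ := Cardinal.lt_aleph0.1 h2
      refine ⟨t, ht, ?_⟩
      rw [ht] at hF
      have h3 : t ≤ n := by exact_mod_cast hF
      simpa using h3
    | succ j ih =>
      intro hj
      obtain ⟨t, ht, h1⟩ := ih (by omega)
      set E := fld F c j with hE
      have hlt := trdeg_lt_of_not_indep (F := E) (fun a : σ j => c ⟨⟨j, by omega⟩, a⟩)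
        (hcon ⟨j, by omega⟩)
      set G := IntermediateField.adjoin E (Set.range fun a : σ j => c ⟨⟨j, by omega⟩, a⟩) with hG
      obtain ⟨s, hs⟩ := Cardinal.lt_aleph0.1 (hlt.trans Cardinal.natCast_lt_aleph0)
      rw [hs] at hlt
      have hlt' : s < Fintype.card (σ j) := by exact_mod_cast hlt
      have h2 : fld F c (j + 1) = G.restrictScalars k₀ := by
        apply le_antisymm
        · rw [fld]
          refine sup_le ?_ (IntermediateField.adjoin_le_iff.2 ?_)
          · intro a ha
            have h3 : a ∈ E := by
              rw [hE, fld]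
              exact (le_sup_left : F ≤ _) ha
            exact G.algebraMap_mem (⟨a, h3⟩ : E)
          · rintro _ ⟨⟨i, a⟩, hi, rfl⟩
            have hi' : (i : ℕ) < j + 1 := hi
            rcases (Nat.lt_succ_iff.1 hi').lt_or_eq with h3 | h3
            · have h4 : c ⟨i, a⟩ ∈ E := by
                rw [hE, fld]
                exact (le_sup_right : IntermediateField.adjoin k₀ (c '' {s | (s.1 : ℕ) < j}) ≤ _)
                  (IntermediateField.subset_adjoin _ _ ⟨⟨i, a⟩, h3, rfl⟩)
              exact G.algebraMap_mem (⟨_, h4⟩ : E)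
            · obtain ⟨i, hin⟩ := i
              simp only at h3
              subst h3
              exact IntermediateField.subset_adjoin E _ ⟨a, rfl⟩
        · intro a ha
          have hle : E ≤ fld F c (j + 1) := by
            rw [hE, fld, fld]
            refine sup_le_sup le_rfl (IntermediateField.adjoin.mono _ _ _ ?_)
            rintro _ ⟨s, hs, rfl⟩
            exact ⟨s, Nat.lt_succ_of_lt hs, rfl⟩
          have h3 : G ≤ IntermediateField.extendScalars hle := by
            rw [hG, IntermediateField.adjoin_le_iff]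
            rintro _ ⟨b, rfl⟩
            change _ ∈ fld F c (j + 1)
            rw [fld]
            exact (le_sup_right : IntermediateField.adjoin k₀ (c '' {s | (s.1 : ℕ) < j + 1}) ≤ _)
              (IntermediateField.subset_adjoin _ _ ⟨⟨⟨j, by omega⟩, b⟩, Nat.lt_succ_self j, rfl⟩)
          exact h3 ha
      have h3 : Algebra.trdeg k₀ E + Algebra.trdeg E G = Algebra.trdeg k₀ G := trdeg_add_eq k₀ E
      refine ⟨t + s, ?_, ?_⟩
      · rw [h2]
        change Algebra.trdeg k₀ G = _
        rw [← h3, ht, hs]
        push_cast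
        rfl
      · rw [Finset.sum_range_succ]
        omega
  obtain ⟨t, ht, h1⟩ := key (n + 1) le_rfl
  have hmem : ∀ s, c s ∈ fld F c (n + 1) := by
    intro s
    rw [fld]
    exact (le_sup_right : IntermediateField.adjoin k₀ (c '' {s | (s.1 : ℕ) < n + 1}) ≤ _)
      (IntermediateField.subset_adjoin _ _ ⟨s, s.1.2, rfl⟩)
  let c' : (Σ j : Fin (n + 1), σ j) → fld F c (n + 1) := fun s => ⟨c s, hmem s⟩
  have hc' : AlgebraicIndependent k₀ c' := by
    have h4 : AlgebraicIndependent k₀ ((fld F c (n + 1)).val ∘ c') := hc
    exact h4.of_comp _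
  have h4 := hc'.lift_cardinalMk_le_trdeg
  rw [ht] at h4
  have h5 : Cardinal.mk (Σ j : Fin (n + 1), σ j) =
      ((∑ i ∈ Finset.range (n + 1), Fintype.card (σ i) : ℕ) : Cardinal) := by
    rw [Cardinal.mk_fintype, Fintype.card_sigma]
    congr 1
    exact Fin.sum_univ_eq_sum_range (fun i => Fintype.card (σ i)) (n + 1)
  rw [h5, Cardinal.lift_natCast, Cardinal.lift_natCast] at h4
  have h6 : ∑ i ∈ Finset.range (n + 1), Fintype.card (σ i) ≤ t := by exact_mod_cast h4
  omega

end Pool.Agent.TGc
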