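import Pool.Agent.Lib.TG_h86.Group

/-!
# TANK G: one of the levels `1, .., n + 1` of generic coefficients stays generic over a point
-/

set_option autoImplicit false

namespace Pool.Agent.TGc

universe u

open IntermediateField

section Level

variable {F k : Type u} [Field F] [Field k] [Algebra F k] {ι : Type} [Fintype ι]

/-- The field generated by the coefficients of level `< i`. -/
noncomputable def lvl (F : Type u) {k : Type u} [Field F] [Field k] [Algebra F k] {ι : Type}
    (c : ι → k) (d : ι → ℕ) (i : ℕ) : IntermediateField F k :=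
  adjoin F (c '' {a | d a < i})

theorem lvl_mono (c : ι → k) (d : ι → ℕ) {i j : ℕ} (hij : i ≤ j) : lvl F c d i ≤ lvl F c d j := by
  refine adjoin.mono _ _ _ ?_
  rintro _ ⟨a, ha, rfl⟩
  exact ⟨a, lt_of_lt_of_le ha hij, rfl⟩

theorem mem_lvl (c : ι → k) (d : ι → ℕ) {i : ℕ} {a : ι} (ha : d a < i) : c a ∈ lvl F c d i :=
  subset_adjoin _ _ ⟨a, ha, rfl⟩

/-- `lvl (i + 1)` is generated over `lvl i` by the coefficients of level `i`. -/
theorem lvl_succ (c : ι → k) (d : ι → ℕ) (i : ℕ) :
    lvl F c d (i + 1) = (adjoin (lvl F c d i)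
      (Set.range fun a : {a : ι // d a = i} => c a)).restrictScalars F := by
  set E := lvl F c d i with hE
  set G := adjoin E (Set.range fun a : {a : ι // d a = i} => c a) with hG
  apply le_antisymm
  · rw [lvl, adjoin_le_iff]
    rintro _ ⟨a, ha, rfl⟩
    rcases (Nat.lt_succ_iff.1 ha).lt_or_eq with h3 | h3
    · exact G.algebraMap_mem (⟨_, mem_lvl c d h3⟩ : E)
    · exact subset_adjoin E _ ⟨⟨a, h3⟩, rfl⟩
  · intro x hx
    have hle : E ≤ lvl F c d (i + 1) := lvl_mono (F := F) c d (Nat.le_succ i)
    have h3 : G ≤ extendScalars hle := by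
      rw [hG, adjoin_le_iff]
      rintro _ ⟨b, rfl⟩
      change c b ∈ lvl F c d (i + 1)
      have hb := b.2
      exact mem_lvl c d (by omega)
    exact h3 hx

/-- The transcendence degree of the field generated by finitely many elements. -/
theorem trdeg_adjoin_range_le {E L : Type u} [Field E] [Field L] [Algebra E L] {κ : Type}
    [Fintype κ] (x : κ → L) :
    Algebra.trdeg E (adjoin E (Set.range x)) ≤ (Fintype.card κ : Cardinal.{u}) := by
  classical
  set G := adjoin E (Set.range x) with hG
  let x' : κ → G := fun i => ⟨x i, subset_adjoin _ _ ⟨i, rfl⟩⟩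
  have h1 : Algebra.IsAlgebraic (adjoin E (Set.range x')) G := by
    refine ⟨fun g => ?_⟩
    refine LU3.R2b.alg_transfer G (Set.range x') (Set.range x) ?_ g ?_
    · rintro y ⟨i, rfl⟩
      exact ⟨x' i, subset_adjoin _ _ ⟨i, rfl⟩, rfl⟩
    · exact isAlgebraic_algebraMap (⟨(g : L), g.2⟩ : adjoin E (Set.range x))
  refine (LU1.trdeg_le_of_isAlgebraic (k := E) (Set.range x') h1).trans ?_
  have h3 := Cardinal.mk_range_le_lift (f := x')
  simpa using h3

theorem trdeg_lvl (c : ι → k) (d : ι → ℕ) (n : ℕ)
    (hcon : ∀ i, 1 ≤ i → i ≤ n + 1 →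
      ¬ AlgebraicIndependent (lvl F c d i) (fun a : {a : ι // d a = i} => c a)) (j : ℕ) :
    ∃ t : ℕ, Algebra.trdeg F (lvl F c d j) = t ∧
      t + min (j - 1) (n + 1) ≤ Fintype.card {a : ι // d a < j} := by
  classical
  induction j with
  | zero =>
    refine ⟨0, ?_, by simp⟩
    have h1 : lvl F c d 0 = ⊥ := by
      rw [lvl]
      have h2 : (c '' {a | d a < 0}) = ∅ := by simp
      rw [h2, adjoin_empty]
    rw [h1]
    have h3 : Algebra.IsAlgebraic F (⊥ : IntermediateField F k) := inferInstance
    rw [Nat.cast_zero]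
    exact trdeg_eq_zero
  | succ j ih =>
    obtain ⟨t, ht, h1⟩ := ih
    set E := lvl F c d j with hE
    set G := adjoin E (Set.range fun a : {a : ι // d a = j} => c a) with hG
    have hle : Algebra.trdeg E G ≤ (Fintype.card {a : ι // d a = j} : Cardinal.{u}) :=
      trdeg_adjoin_range_le _
    obtain ⟨s, hs⟩ := Cardinal.lt_aleph0.1 (hle.trans_lt Cardinal.natCast_lt_aleph0)
    have hle' : s ≤ Fintype.card {a : ι // d a = j} := by
      rw [hs] at hle
      exact_mod_cast hle
    have h3 : Algebra.trdeg F E + Algebra.trdeg E G = Algebra.trdeg F G := trdeg_add_eq F E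
    have hcard : Fintype.card {a : ι // d a < j + 1} =
        Fintype.card {a : ι // d a < j} + Fintype.card {a : ι // d a = j} := by
      rw [Fintype.card_subtype, Fintype.card_subtype, Fintype.card_subtype,
        ← Finset.card_union_of_disjoint]
      · congr 1
        ext a
        simp only [Finset.mem_filter, Finset.mem_univ, true_and, Finset.mem_union]
        omega
      · rw [Finset.disjoint_filter]
        intro a _ h
        omega
    refine ⟨t + s, ?_, ?_⟩
    · rw [lvl_succ]
      change Algebra.trdeg F G = _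
      rw [← h3, ht, hs]
      push_cast
      rfl
    · rw [hcard]
      by_cases hj : 1 ≤ j ∧ j ≤ n + 1
      · have hlt := trdeg_lt_of_not_indep (F := E) (fun a : {a : ι // d a = j} => c a)
          (hcon j hj.1 hj.2)
        rw [← hG, hs] at hlt
        have hlt' : s < Fintype.card {a : ι // d a = j} := by exact_mod_cast hlt
        have h5 : min (j + 1 - 1) (n + 1) ≤ min (j - 1) (n + 1) + 1 := by omega
        omega
      · have h5 : min (j + 1 - 1) (n + 1) = min (j - 1) (n + 1) := by omega
        omega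

/-- One of the levels `1, .., n + 1` is algebraically independent over the lower levels. -/
theorem exists_level (c : ι → k) (d : ι → ℕ) (n : ℕ)
    (hdef : (Fintype.card ι : Cardinal.{u}) ≤ Algebra.trdeg F (adjoin F (Set.range c)) + n) :
    ∃ i, 1 ≤ i ∧ i ≤ n + 1 ∧
      AlgebraicIndependent (lvl F c d i) (fun a : {a : ι // d a = i} => c a) := by
  classical
  by_contra hcon
  push Not at hcon
  obtain ⟨M, hM⟩ : ∃ M : ℕ, n + 2 ≤ M ∧ ∀ a, d a < M := by
    refine ⟨(Finset.univ.sup d) + n + 2, by omega, fun a => ?_⟩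
    have := Finset.le_sup (f := d) (Finset.mem_univ a)
    omega
  obtain ⟨t, ht, h1⟩ := trdeg_lvl (F := F) c d n hcon M
  have h2 : lvl F c d M = adjoin F (Set.range c) := by
    rw [lvl]
    congr 1
    ext x
    constructor
    · rintro ⟨a, _, rfl⟩
      exact ⟨a, rfl⟩
    · rintro ⟨a, rfl⟩
      exact ⟨a, hM.2 a, rfl⟩
  rw [← h2, ht] at hdef
  have h3 : Fintype.card ι ≤ t + n := by exact_mod_cast hdef
  have h4 : Fintype.card {a : ι // d a < M} ≤ Fintype.card ι := Fintype.card_subtype_le _
  have h5 : min (M - 1) (n + 1) = n + 1 := by omega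
  omega

end Level

section Defect

variable {k₀ k : Type u} [Field k₀] [Field k] [Algebra k₀ k] {ι : Type} [Fintype ι] {n : ℕ}

/-- The defect of generic coefficients over a field of transcendence degree `≤ n`. -/
theorem card_le_trdeg_add (c : ι → k) (hc : AlgebraicIndependent k₀ c) (F : IntermediateField k₀ k)
    (hF : Algebra.trdeg k₀ F ≤ n) :
    (Fintype.card ι : Cardinal.{u}) ≤ Algebra.trdeg F (adjoin F (Set.range c)) + n := by
  classical
  set G := adjoin F (Set.range c) with hG
  let c' : ι → G := fun i => ⟨c i, subset_adjoin _ _ ⟨i, rfl⟩⟩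
  have hc' : AlgebraicIndependent k₀ c' := by
    have h4 : AlgebraicIndependent k₀ ((G.val.restrictScalars k₀ : G →ₐ[k₀] k) ∘ c') := hc
    exact h4.of_comp _
  have h4 := hc'.lift_cardinalMk_le_trdeg
  have h3 : Algebra.trdeg k₀ F + Algebra.trdeg F G = Algebra.trdeg k₀ G := trdeg_add_eq k₀ F
  rw [Cardinal.mk_fintype, Cardinal.lift_natCast, Cardinal.lift_uzero, ← h3, add_comm] at h4
  exact h4.trans (by gcongr)

/-- With defect `≤ n` at most `n` of the coefficients vanish. -/
theorem card_zero_le {F : Type u} [Field F] [Algebra F k] (c : ι → k)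
    (hdef : (Fintype.card ι : Cardinal.{u}) ≤ Algebra.trdeg F (adjoin F (Set.range c)) + n)
    (s : Finset ι) (hs : ∀ a ∈ s, c a = 0) : s.card ≤ n := by
  classical
  have h1 : adjoin F (Set.range c) = adjoin F (Set.range fun a : {a : ι // a ∉ s} => c a) := by
    apply le_antisymm
    · rw [adjoin_le_iff]
      rintro _ ⟨a, rfl⟩
      by_cases ha : a ∈ s
      · rw [hs a ha]
        exact zero_mem _
      · exact subset_adjoin _ _ ⟨⟨a, ha⟩, rfl⟩
    · rw [adjoin_le_iff]
      rintro _ ⟨a, rfl⟩
      exact subset_adjoin _ _ ⟨a, rfl⟩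
  rw [h1] at hdef
  have h2 := hdef.trans (add_le_add (trdeg_adjoin_range_le
    (fun a : {a : ι // a ∉ s} => c a)) le_rfl)
  have h3 : Fintype.card ι ≤ Fintype.card {a : ι // a ∉ s} + n := by exact_mod_cast h2
  have h4 : Fintype.card {a : ι // a ∉ s} = Fintype.card ι - s.card := by
    rw [Fintype.card_subtype_compl, Fintype.card_coe]
  have h5 : s.card ≤ Fintype.card ι := Finset.card_le_univ s
  omega

end Defect

end Pool.Agent.TGc
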