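import Pool.Agent.Lib.TG_h86.Res

/-!
# TANK G: generic linear relations between residues do not exist
-/

set_option autoImplicit false

namespace Pool.Agent.TGc

open Pool.Agent.TG (ZDim Ov)
open MvPolynomial

universe u

variable {k₂ k K : Type u} [Field k₂] [Field k] [Field K] [Algebra k₂ k] [Algebra k₂ K]
  [Algebra k K] [IsScalarTower k₂ k K] {V : ValuationSubring K}

/-- Let `V` be a valuation ring with residue field `k`, not trivial on `K₂`, where
`trdeg K₂ ≤ m + 1` over `k₂`. There are no `m + 1` linear relations between residues of elements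
of `K₂` with coefficients in `k` algebraically independent over `k₂`. -/
theorem no_rel (hV : ZDim k V) (K₂ : IntermediateField k₂ K) {m : ℕ}
    (hK₂ : Algebra.trdeg k₂ K₂ ≤ (m + 1 : ℕ)) {w : K} (hw : w ∈ K₂) (hw0 : w ≠ 0)
    (hw1 : V.valuation w < 1) {B : Type} [Fintype B] (v : Fin (m + 1) × B → k)
    (hv : AlgebraicIndependent k₂ v) (η : Fin (m + 1) → K) (hη : ∀ j, η j ∈ K₂)
    (ξ : B → K) (hξ : ∀ b, ξ b ∈ K₂) (hξV : ∀ b, ξ b ∈ V) (b₀ : B) (hb₀ : ξ b₀ = 1)
    (hrel : ∀ j, V.valuation (η j + ∑ b, algebraMap k K (v (j, b)) * ξ b) < 1) : False := by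
  classical
  set F := resF hV.ov K₂ with hF
  have hFm : Algebra.trdeg k₂ F ≤ m := trdeg_resF_le hV.ov K₂ hK₂ hw hw0 hw1
  let c : (Σ _ : Fin (m + 1), B) → k := fun s => v (s.1, s.2)
  have hc : AlgebraicIndependent k₂ c := by
    refine hv.comp (fun s : (Σ _ : Fin (m + 1), B) => (s.1, s.2)) ?_
    rintro ⟨a, b⟩ ⟨a', b'⟩ h
    obtain ⟨h1, h2⟩ := Prod.mk.inj h
    simp only at h1 h2
    subst h1
    subst h2
    rfl
  obtain ⟨j, hj⟩ := exists_group (σ := fun _ => B) c hc F hFm
  set E := fld (n := m) (σ := fun _ => B) F c j with hE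
  have hFE : F ≤ E := by
    rw [hE, fld]
    exact le_sup_left
  -- the residues
  choose y hy using fun b => hV.res (ξ b) (hξV b)
  have hyF : ∀ b, y b ∈ F := fun b => mem_resF.2 ⟨ξ b, hξ b, hξV b, hy b⟩
  have hsum : ∑ b, algebraMap k K (v (j, b)) * ξ b ∈ V :=
    V.sum_mem fun b _ => V.mul_mem _ _ (hV.ov _) (hξV b)
  have hηV : η j ∈ V := by
    have h1 : η j = (η j + ∑ b, algebraMap k K (v (j, b)) * ξ b) -
        ∑ b, algebraMap k K (v (j, b)) * ξ b := by ring
    rw [h1]
    exact sub_mem ((V.valuation_le_one_iff _).1 (hrel j).le) hsum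
  obtain ⟨θ, hθ⟩ := hV.res (η j) hηV
  have hθF : θ ∈ F := mem_resF.2 ⟨η j, hη j, hηV, hθ⟩
  have hy0 : y b₀ = 1 := by
    refine res_unique (x := ξ b₀) hV.ov (hy b₀) ?_
    rw [hb₀, map_one, sub_self, map_zero]
    exact zero_lt_one
  have hzero : θ + ∑ b, v (j, b) * y b = 0 := by
    apply const_eq_zero hV.ov (V := V)
    have h1 : algebraMap k K (θ + ∑ b, v (j, b) * y b) =
        (η j + ∑ b, algebraMap k K (v (j, b)) * ξ b) -
        ((η j - algebraMap k K θ) +
          ∑ b, algebraMap k K (v (j, b)) * (ξ b - algebraMap k K (y b))) := by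
      rw [map_add, map_sum]
      simp only [map_mul, mul_sub, Finset.sum_sub_distrib]
      ring
    rw [h1]
    refine Valuation.map_sub_lt _ (hrel j) (Valuation.map_add_lt _ hθ ?_)
    refine Valuation.map_sum_lt _ one_ne_zero fun b _ => ?_
    rw [map_mul]
    exact mul_lt_one_of_nonneg_of_lt_one_right ((V.valuation_le_one_iff _).2 (hV.ov _)) zero_le
      (hy b)
  -- the polynomial
  let P : MvPolynomial B E := C ⟨θ, hFE hθF⟩ + ∑ b, C ⟨y b, hFE (hyF b)⟩ * X b
  have hP0 : aeval (fun b : B => c ⟨j, b⟩) P = 0 := by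
    simp only [P, map_add, map_sum, map_mul, aeval_C, aeval_X]
    rw [← hzero]
    congr 1
    refine Finset.sum_congr rfl fun b _ => ?_
    rw [mul_comm]
    rfl
  have hP : P = 0 := by
    rw [algebraicIndependent_iff] at hj
    exact hj P hP0
  have hco : coeff (Finsupp.single b₀ 1) P = 1 := by
    simp only [P, coeff_add, coeff_C, coeff_sum, coeff_C_mul, coeff_X]
    rw [if_neg (by
      intro h
      have := DFunLike.congr_fun h b₀
      simp at this), zero_add]
    rw [Finset.sum_eq_single b₀]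
    · rw [if_pos rfl, mul_one]
      exact Subtype.ext hy0
    · intro b _ hb
      rw [if_neg, mul_zero]
      intro h
      exact hb (Finsupp.single_left_injective one_ne_zero h)
    · intro h
      exact absurd (Finset.mem_univ _) h
  rw [hP, coeff_zero] at hco
  exact zero_ne_one hco

end Pool.Agent.TGc
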