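import Pool.Agent.Lib.TG_h86.Level
import Pool.Agent.Lib.TG.Defs
import Pool.Agent.Lib.LU2_h15.AbhA

/-!
# TANK G: the residues of an intermediate field at a zero-dimensional valuation
-/

set_option autoImplicit false

namespace Pool.Agent.TGc

open Pool.Agent.TG (ZDim Ov)
open Pool.Agent.LU2 (IndVal IndRes abhyankar exists_algInd)

universe u

section Res

variable {k₂ k K : Type u} [Field k₂] [Field k] [Field K] [Algebra k₂ k] [Algebra k₂ K]
  [Algebra k K] [IsScalarTower k₂ k K] {V : ValuationSubring K}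

theorem res_mul {x y : K} {a b : k} (hb : algebraMap k K b ∈ V)
    (hxV : x ∈ V)
    (hx : V.valuation (x - algebraMap k K a) < 1) (hy : V.valuation (y - algebraMap k K b) < 1) :
    V.valuation (x * y - algebraMap k K (a * b)) < 1 := by
  have h1 : x * y - algebraMap k K (a * b) =
      x * (y - algebraMap k K b) + algebraMap k K b * (x - algebraMap k K a) := by
    rw [map_mul]; ring
  rw [h1]
  refine Valuation.map_add_lt _ ?_ ?_
  · rw [map_mul]
    exact mul_lt_one_of_nonneg_of_lt_one_right ((V.valuation_le_one_iff _).2 hxV) zero_le' hy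
  · rw [map_mul]
    exact mul_lt_one_of_nonneg_of_lt_one_right ((V.valuation_le_one_iff _).2 hb) zero_le' hx

theorem val_const (hV : Ov k V) {c : k} (hc : c ≠ 0) : V.valuation (algebraMap k K c) = 1 := by
  refine le_antisymm ((V.valuation_le_one_iff _).2 (hV c)) ?_
  have h1 := (V.valuation_le_one_iff _).2 (hV c⁻¹)
  rw [map_inv₀, map_inv₀] at h1
  have h0 : V.valuation (algebraMap k K c) ≠ 0 := by
    rw [Valuation.ne_zero_iff, map_ne_zero_iff _ (algebraMap k K).injective]
    exact hc
  rwa [inv_le_one₀ (zero_lt_iff.2 h0)] at h1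

theorem const_eq_zero (hV : Ov k V) {c : k} (h : V.valuation (algebraMap k K c) < 1) : c = 0 := by
  by_contra hc
  rw [val_const hV hc] at h
  exact lt_irrefl _ h

theorem res_unique (hV : Ov k V) {x : K} {a b : k}
    (ha : V.valuation (x - algebraMap k K a) < 1) (hb : V.valuation (x - algebraMap k K b) < 1) :
    a = b := by
  rw [← sub_eq_zero]
  apply const_eq_zero hV
  have h1 : algebraMap k K (a - b) = (x - algebraMap k K b) - (x - algebraMap k K a) := by
    rw [map_sub]; ring
  rw [h1]
  exact Valuation.map_sub_lt _ hb ha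

/-- The residues at `V` of the elements of the intermediate field `K₂`. -/
noncomputable def resF (hV : Ov k V) (K₂ : IntermediateField k₂ K) : IntermediateField k₂ k where
  carrier := {c | ∃ x ∈ K₂, x ∈ V ∧ V.valuation (x - algebraMap k K c) < 1}
  mul_mem' := by
    rintro a b ⟨x, hx, hxV, hxa⟩ ⟨y, hy, hyV, hyb⟩
    exact ⟨x * y, K₂.mul_mem hx hy, V.mul_mem _ _ hxV hyV, res_mul (hV b) hxV hxa hyb⟩
  add_mem' := by
    rintro a b ⟨x, hx, hxV, hxa⟩ ⟨y, hy, hyV, hyb⟩
    refine ⟨x + y, K₂.add_mem hx hy, V.add_mem _ _ hxV hyV, ?_⟩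
    have h1 : x + y - algebraMap k K (a + b) =
        (x - algebraMap k K a) + (y - algebraMap k K b) := by rw [map_add]; ring
    rw [h1]
    exact Valuation.map_add_lt _ hxa hyb
  algebraMap_mem' := by
    intro c
    refine ⟨algebraMap k₂ K c, K₂.algebraMap_mem c, ?_, ?_⟩
    · rw [IsScalarTower.algebraMap_apply k₂ k K]
      exact hV _
    · rw [IsScalarTower.algebraMap_apply k₂ k K, sub_self, map_zero]
      exact zero_lt_one
  inv_mem' := by
    rintro a ⟨x, hx, hxV, hxa⟩
    by_cases ha : a = 0
    · subst ha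
      refine ⟨0, K₂.zero_mem, V.zero_mem, ?_⟩
      rw [inv_zero, map_zero, sub_self, map_zero]
      exact zero_lt_one
    · have hva := val_const hV ha
      have hvx : V.valuation x = 1 := by
        have h1 : x = algebraMap k K a + (x - algebraMap k K a) := by ring
        rw [h1, Valuation.map_add_eq_of_lt_left _ (by rwa [hva]), hva]
      have hx0 : x ≠ 0 := by
        rintro rfl
        rw [map_zero] at hvx
        exact zero_ne_one hvx
      have ha0 : algebraMap k K a ≠ 0 := by
        rwa [Ne, map_eq_zero_iff _ (algebraMap k K).injective]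
      refine ⟨x⁻¹, K₂.inv_mem hx, ?_, ?_⟩
      · rw [← V.valuation_le_one_iff, map_inv₀, hvx, inv_one]
      · have h2 : x⁻¹ - algebraMap k K a⁻¹ =
            -(x⁻¹ * (algebraMap k K a)⁻¹) * (x - algebraMap k K a) := by
          rw [map_inv₀]
          field_simp
          ring
        rw [h2, map_mul, Valuation.map_neg, map_mul, map_inv₀, map_inv₀, hvx, hva]
        simpa using hxa

theorem mem_resF {hV : Ov k V} {K₂ : IntermediateField k₂ K} {c : k} :
    c ∈ resF hV K₂ ↔ ∃ x ∈ K₂, x ∈ V ∧ V.valuation (x - algebraMap k K c) < 1 := Iff.rfl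

/-- Residues of polynomial expressions. -/
theorem res_aeval (hV : Ov k V) {ι : Type*} (z : ι → K) (y : ι → k) (hz : ∀ i, z i ∈ V)
    (hy : ∀ i, V.valuation (z i - algebraMap k K (y i)) < 1) (P : MvPolynomial ι k₂) :
    V.valuation (MvPolynomial.aeval z P - algebraMap k K (MvPolynomial.aeval y P)) < 1 := by
  have hk : ∀ c : k₂, algebraMap k₂ K c ∈ V := fun c => by
    rw [IsScalarTower.algebraMap_apply k₂ k K]
    exact hV _
  induction P using MvPolynomial.induction_on with
  | C c =>
    rw [MvPolynomial.aeval_C, MvPolynomial.aeval_C, IsScalarTower.algebraMap_apply k₂ k K,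
      sub_self, map_zero]
    exact zero_lt_one
  | add P Q hP hQ =>
    have h1 : MvPolynomial.aeval z (P + Q) - algebraMap k K (MvPolynomial.aeval y (P + Q)) =
        (MvPolynomial.aeval z P - algebraMap k K (MvPolynomial.aeval y P)) +
        (MvPolynomial.aeval z Q - algebraMap k K (MvPolynomial.aeval y Q)) := by
      rw [map_add, map_add, map_add]; ring
    rw [h1]
    exact Valuation.map_add_lt _ hP hQ
  | mul_X P i hP =>
    rw [map_mul, map_mul, MvPolynomial.aeval_X, MvPolynomial.aeval_X]
    exact res_mul (hV _) (LU2.aeval_mem_V hk hz P) hP (hy i)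

/-- If `V` is not trivial on `K₂` then the transcendence degree of the residues drops. -/
theorem trdeg_resF_le (hV : Ov k V) (K₂ : IntermediateField k₂ K) {m : ℕ}
    (hK₂ : Algebra.trdeg k₂ K₂ ≤ (m + 1 : ℕ)) {w : K} (hw : w ∈ K₂) (hw0 : w ≠ 0)
    (hw1 : V.valuation w < 1) : Algebra.trdeg k₂ (resF hV K₂) ≤ m := by
  have hk : ∀ c : k₂, algebraMap k₂ K c ∈ V := fun c => by
    rw [IsScalarTower.algebraMap_apply k₂ k K]
    exact hV _
  by_contra hcon
  rw [not_le] at hcon
  have h1 : ((m + 1 : ℕ) : Cardinal.{u}) ≤ Algebra.trdeg k₂ (resF hV K₂) := by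
    have h0 := Order.succ_le_of_lt hcon
    rw [Cardinal.succ_natCast] at h0
    exact_mod_cast h0
  obtain ⟨y, hy⟩ := exists_algInd h1
  choose z hzK hzV hz using fun i => mem_resF.1 (y i).2
  -- the valuation ring of `K₂`
  let V₂ : ValuationSubring K₂ := V.comap (algebraMap K₂ K)
  have hV₂ : ∀ x : K₂, V₂.valuation x < 1 ↔ V.valuation (x : K) < 1 := by
    intro x
    by_cases hx0 : x = 0
    · subst hx0
      simp
    have hx0' : (x : K) ≠ 0 := fun h => hx0 (Subtype.ext h)
    rw [← not_le, ← not_le, not_iff_not]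
    have e1 : (1 ≤ V₂.valuation x) ↔ x⁻¹ ∈ V₂ := by
      rw [← V₂.valuation_le_one_iff, map_inv₀,
        inv_le_one₀ (zero_lt_iff.2 ((Valuation.ne_zero_iff _).2 hx0))]
    have e2 : (1 ≤ V.valuation (x : K)) ↔ (x : K)⁻¹ ∈ V := by
      rw [← V.valuation_le_one_iff, map_inv₀,
        inv_le_one₀ (zero_lt_iff.2 ((Valuation.ne_zero_iff _).2 hx0'))]
    rw [e1, e2]
    rfl
  have hk2 : ∀ c : k₂, algebraMap k₂ K₂ c ∈ V₂ := fun c => hk c
  let w' : K₂ := ⟨w, hw⟩
  have hw0' : w' ≠ 0 := fun h => hw0 (congrArg Subtype.val h)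
  have hw1' : V₂.valuation w' < 1 := (hV₂ w').2 hw1
  have hx : IndVal V₂ (fun _ : Fin 1 => w') := by
    refine ⟨fun _ => hw0', ?_⟩
    intro e he
    rw [Finsupp.prod_fintype _ _ (by intro i; simp)] at he
    simp only [Finset.univ_unique, Fin.default_eq_zero, Fin.isValue, Finset.prod_singleton,
      map_zpow₀] at he
    have h1 : e 0 = 0 := by
      by_contra h2
      have hpos : 0 < V₂.valuation w' := zero_lt_iff.2 ((Valuation.ne_zero_iff _).2 hw0')
      rcases lt_or_gt_of_ne h2 with h3 | h3
      · have h4 := one_lt_zpow_of_neg₀ hpos hw1' h3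
        exact absurd he h4.ne'
      · have h4 := zpow_lt_one₀ hpos hw1' h3
        exact absurd he h4.ne
    ext
    exact h1
  have hz' : IndRes k₂ V₂ (fun i : Fin (m + 1) => (⟨z i, hzK i⟩ : K₂)) := by
    refine ⟨fun i => hzV i, ?_⟩
    intro P hP
    rw [hV₂] at hP
    have h2 : ((MvPolynomial.aeval (fun i : Fin (m + 1) => (⟨z i, hzK i⟩ : K₂)) P : K₂) : K) =
        MvPolynomial.aeval z P := by
      have := MvPolynomial.aeval_algebraMap_apply (A := K₂) K (fun i => (⟨z i, hzK i⟩ : K₂)) P
      exact this.symm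
    rw [h2] at hP
    have h3 := res_aeval hV z (fun i => ((y i : resF hV K₂) : k)) hzV hz P
    have h4 : MvPolynomial.aeval (fun i => ((y i : resF hV K₂) : k)) P = 0 := by
      apply const_eq_zero hV
      have h5 : algebraMap k K (MvPolynomial.aeval (fun i => ((y i : resF hV K₂) : k)) P) =
          MvPolynomial.aeval z P -
          (MvPolynomial.aeval z P - algebraMap k K
            (MvPolynomial.aeval (fun i => ((y i : resF hV K₂) : k)) P)) := by ring
      rw [h5]
      exact Valuation.map_sub_lt _ hP h3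
    have h5 : AlgebraicIndependent k₂ (fun i => ((y i : resF hV K₂) : k)) :=
      hy.map' (f := (resF hV K₂).val) (resF hV K₂).val.injective
    rw [algebraicIndependent_iff] at h5
    exact h5 P h4
  have h6 := abhyankar hk2 hx hz'
  have h7 := h6.trans hK₂
  have h8 : 1 + (m + 1) ≤ m + 1 := by exact_mod_cast h7
  omega

/-- The transcendence degree of a compositum. -/
theorem trdeg_adjoin_le {k₀ : Type u} [Field k₀] [Algebra k₀ k₂] [Algebra k₀ K]
    [IsScalarTower k₀ k₂ K] (K₀ : IntermediateField k₀ K) :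
    Algebra.trdeg k₂ (IntermediateField.adjoin k₂ (K₀ : Set K)) ≤ Algebra.trdeg k₀ K₀ := by
  obtain ⟨ι, x, hx⟩ := exists_isTranscendenceBasis' k₀ K₀
  set G := IntermediateField.adjoin k₂ (K₀ : Set K) with hG
  have hmem : ∀ a : K₀, (a : K) ∈ G := fun a => IntermediateField.subset_adjoin _ _ a.2
  let x' : ι → G := fun i => ⟨(x i : K), hmem _⟩
  have h1 : Algebra.IsAlgebraic (IntermediateField.adjoin k₂ (Set.range x')) G := by
    refine ⟨fun g => ?_⟩
    set E : IntermediateField k₂ K :=
      IntermediateField.adjoin k₂ (Set.range fun i => (x i : K)) with hE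
    have hxE : ∀ a : K₀, IsAlgebraic E (a : K) := by
      intro a
      have h2 := hx.isAlgebraic
      have h3 : IsAlgebraic (Algebra.adjoin k₀ (Set.range x)) a := h2.isAlgebraic a
      obtain ⟨P, hP0, hP⟩ := h3
      have hco : ∀ c : Algebra.adjoin k₀ (Set.range x), ((c : K₀) : K) ∈ E := by
        intro c
        have h4 : (c : K₀) ∈ (Algebra.adjoin k₀ (Set.range x)) := c.2
        refine Algebra.adjoin_induction (p := fun c _ => ((c : K₀) : K) ∈ E) ?_ ?_ ?_ ?_ h4
        · rintro _ ⟨i, rfl⟩
          exact IntermediateField.subset_adjoin _ _ ⟨i, rfl⟩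
        · intro r
          have h5 : ((algebraMap k₀ K₀ r : K₀) : K) = algebraMap k₂ K (algebraMap k₀ k₂ r) := by
            rw [← IsScalarTower.algebraMap_apply k₀ k₂ K]
            rfl
          rw [h5]
          exact E.algebraMap_mem _
        · intro a b _ _ ha hb
          exact E.add_mem ha hb
        · intro a b _ _ ha hb
          exact E.mul_mem ha hb
      let f : Algebra.adjoin k₀ (Set.range x) →+* E :=
        { toFun := fun c => ⟨((c : K₀) : K), hco c⟩
          map_one' := rfl
          map_mul' := fun _ _ => rfl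
          map_zero' := rfl
          map_add' := fun _ _ => rfl }
      have hf : Function.Injective f := by
        intro c c' h
        have h6 : ((c : K₀) : K) = ((c' : K₀) : K) := congrArg (fun e : E => (e : K)) h
        exact Subtype.ext (Subtype.ext h6)
      refine ⟨P.map f, (Polynomial.map_ne_zero_iff hf).2 hP0, ?_⟩
      rw [Polynomial.aeval_def, Polynomial.eval₂_map]
      have h5 : (algebraMap E K).comp f = (algebraMap K₀ K).comp (algebraMap _ K₀) := by
        ext c
        rfl
      rw [h5]
      have h6 := Polynomial.hom_eval₂ P (algebraMap (Algebra.adjoin k₀ (Set.range x)) K₀)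
        (algebraMap K₀ K) a
      rw [← Polynomial.aeval_def, hP, map_zero] at h6
      exact h6.symm
    refine LU3.R2b.alg_transfer G (Set.range x') (Set.range fun i => (x i : K)) ?_ g ?_
    · rintro y ⟨i, rfl⟩
      exact ⟨x' i, IntermediateField.subset_adjoin _ _ ⟨i, rfl⟩, rfl⟩
    · let A : IntermediateField k₂ K := (algebraicClosure E K).restrictScalars k₂
      have hA : G ≤ A := by
        rw [hG, IntermediateField.adjoin_le_iff]
        intro a ha
        exact (mem_algebraicClosure_iff (F := E)).2 (hxE ⟨a, ha⟩)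
      exact (mem_algebraicClosure_iff (F := E)).1 (hA g.2)
  refine (LU1.trdeg_le_of_isAlgebraic (k := k₂) (Set.range x') h1).trans ?_
  rw [← hx.cardinalMk_eq_trdeg]
  exact Cardinal.mk_range_le

end Res

end Pool.Agent.TGc
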